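import Pool.Agent.Lib.MP_87e9f0_pr.Growth

set_option autoImplicit false

open MeasureTheory ProbabilityTheory Filter Topology

namespace Pool.Agent.Lib.MP_87e9f0_pr

/-- Growth of all queues in a finite block along the line `φ i * (κ t + b)`. -/
lemma block_growth {d : ℕ} {a : Site d → ℝ} (ha : IsInterference a) {B : Finset (Site d)}
    {φ : Site d → ℝ} {ρ η : ℝ} (hρ : 1 ≤ ρ) (hη : 0 < η)
    (hφpos : ∀ i ∈ B, 0 < φ i) (hφ0 : ∀ i, i ∉ B → φ i = 0)
    (hφρ : ∀ i ∈ B, ρ * φ i ≤ ∑ᶠ j, a j * φ (i - j))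
    {arr dep u : Site d → ℕ → ℝ} {x : ℝ → Site d → ℕ}
    (hdyn : ∀ i ∈ B, SiteDyn (arr i) (dep i)
      {n | u i n < departureRate a (fun j => Function.leftLim (fun s => x s j) (dep i n)) i}
      (fun t => x t i))
    (hmono : ∀ i ∈ B, StrictMono (dep i))
    {κ b γ ε K : ℝ} (hκ : 0 ≤ κ) (hb : 0 ≤ b)
    (hZ : ∀ i ∈ B, ∀ s t, 1 ≤ s → s ≤ t → γ * (t - s) - ε * t - K ≤
      ({n | s < arr i n ∧ arr i n ≤ t}.ncard : ℝ) -
      ({n | s < dep i n ∧ dep i n ≤ t ∧ n ∈ {n | u i n < (1 + η) / (ρ + η)}}.ncard : ℝ))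
    (hM : ∀ i ∈ B, K + γ + φ i * b ≤ x 1 i)
    (h1 : ∀ i ∈ B, (1 + η) * φ i * κ ≤ γ) (h2 : ∀ i ∈ B, φ i * κ ≤ γ - ε)
    (h3 : ∀ i ∈ B, ε ≤ η * φ i * κ) (h4 : ∀ i ∈ B, 1 + K ≤ η * φ i * b) :
    ∀ t, 1 ≤ t → ∀ i ∈ B, φ i * (κ * t + b) ≤ x t i := by
  classical
  -- strong induction on the number of potential departures in the block up to time `t`
  have main : ∀ N : ℕ, ∀ t, 1 ≤ t → ∑ i ∈ B, {n | dep i n ≤ t}.ncard = N →
      ∀ i ∈ B, φ i * (κ * t + b) ≤ x t i := by
    intro N
    induction N using Nat.strong_induction_on with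
    | _ N ih =>
    intro t ht hN i hi
    -- the claim holds at all times before a potential departure in `(1, t]`
    have hprev : ∀ n, 1 < dep i n → dep i n ≤ t → ∀ j ∈ B,
        φ j * (κ * dep i n + b) ≤ (Function.leftLim (fun s => x s j) (dep i n) : ℕ) := by
      intro n hn1 hn2 j hj
      set D := dep i n with hD
      obtain ⟨c, hc, hlim⟩ := (hdyn j hj).eventually_const (lt_trans zero_lt_one hn1)
      rw [hlim]
      have h5 : ∀ᶠ s in 𝓝[<] D, 1 < s :=
        eventually_nhdsWithin_of_eventually_nhds (lt_mem_nhds hn1)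
      have h6 : ∀ᶠ s in 𝓝[<] D, φ j * (κ * s + b) ≤ (c : ℝ) := by
        filter_upwards [hc, h5, self_mem_nhdsWithin] with s hs1 hs2 hs3
        have hlt : ∑ k ∈ B, {m | dep k m ≤ s}.ncard < N := by
          rw [← hN]
          apply Finset.sum_lt_sum
          · intro k hk
            exact Set.ncard_le_ncard (fun m hm => hm.trans ((le_of_lt hs3).trans hn2))
              ((hdyn k hk).finD t)
          · refine ⟨i, hi, Set.ncard_lt_ncard ?_ ((hdyn i hi).finD t)⟩
            refine ⟨fun m hm => hm.trans ((le_of_lt hs3).trans hn2), fun hsub => ?_⟩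
            have : dep i n ≤ s := hsub (show dep i n ≤ t from hn2)
            exact absurd this (not_le.2 hs3)
        have := ih _ hlt s hs2.le rfl j hj
        rw [← hs1]
        exact this
      have hcont : Tendsto (fun s => φ j * (κ * s + b)) (𝓝[<] D) (𝓝 (φ j * (κ * D + b))) := by
        have : Continuous (fun s => φ j * (κ * s + b)) := by fun_prop
        exact (this.tendsto D).mono_left nhdsWithin_le_nhds
      exact le_of_tendsto hcont h6
    have hstep := (hdyn i hi).step (hmono i hi) zero_le_one ht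
      {n | u i n < (1 + η) / (ρ + η)} (fun s => (1 + η) * (φ i * (κ * s + b)))
      (by
        intro s s' hss
        have : 0 ≤ (1 + η) * φ i := mul_nonneg (by linarith) (hφpos i hi).le
        have h5 : κ * s ≤ κ * s' := mul_le_mul_of_nonneg_left hss hκ
        show (1 + η) * (φ i * (κ * s + b)) ≤ (1 + η) * (φ i * (κ * s' + b))
        nlinarith [mul_le_mul_of_nonneg_left h5 this])
      (by
        intro n hacc hn1 hn2
        by_contra hcon
        push Not at hcon
        obtain ⟨hc1, hc2⟩ := hcon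
        apply hc1
        have hθ : 0 ≤ κ * dep i n + b := by
          have : 0 ≤ κ * dep i n := mul_nonneg hκ (by linarith)
          linarith
        have hrate := departureRate_le ha (φ := φ) hρ hη (θ := κ * dep i n + b)
          (y := fun j => Function.leftLim (fun s => x s j) (dep i n)) (i := i)
          (hφρ i hi) hθ
          (by
            intro j
            by_cases hj : j ∈ B
            · have := hprev n hn1 hn2 j hj
              linarith
            · rw [hφ0 j hj, mul_zero]
              exact Nat.cast_nonneg _)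
          (by
            have : (κ * dep i n + b) * φ i = φ i * (κ * dep i n + b) := mul_comm _ _
            rw [this]
            exact hc2)
        exact lt_of_lt_of_le hacc hrate)
    have hφi := hφpos i hi
    rcases hstep with hA | ⟨s, hs1, hs2, hs3, hs4⟩
    · have hZ1 := hZ i hi 1 t le_rfl ht
      have hM1 := hM i hi
      have h21 := h2 i hi
      have : φ i * κ * t ≤ (γ - ε) * t := mul_le_mul_of_nonneg_right h21 (by linarith)
      nlinarith
    · have hZ1 := hZ i hi s t hs1 hs2.le
      have h11 := h1 i hi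
      have h31 := h3 i hi
      have h41 := h4 i hi
      have e1 : (1 + η) * φ i * κ * (t - s) ≤ γ * (t - s) :=
        mul_le_mul_of_nonneg_right h11 (by linarith)
      have e2 : ε * t ≤ η * φ i * κ * t := mul_le_mul_of_nonneg_right h31 (by linarith)
      nlinarith
  intro t ht i hi
  exact main _ t ht rfl i hi

/-- Spreading: if queue `j` grows at least linearly and `a (i - j) > 0`, so does queue `i`. -/
lemma spread {d : ℕ} {a : Site d → ℝ} (ha : IsInterference a) {i j : Site d}
    (haij : 0 < a (i - j))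
    {arr dep u : ℕ → ℝ} {x : ℝ → Site d → ℕ}
    (hdyni : SiteDyn arr dep
      {n | u n < departureRate a (fun k => Function.leftLim (fun s => x s k) (dep n)) i}
      (fun t => x t i))
    (hleft : ∀ D, 0 < D → ∃ c : ℕ, (∀ᶠ s in 𝓝[<] D, x s j = c) ∧
      Function.leftLim (fun s => x s j) D = c)
    (hmono : StrictMono dep)
    {c : ℝ} (hc : 0 < c) (hgrow : ∀ᶠ t in atTop, c * t ≤ x t j)
    {p γ : ℝ} (hp : 0 < p) (hγ : 0 < γ)
    (hZ : ∀ ε : ℝ, 0 < ε → ∃ K : ℝ, ∀ s t, 0 ≤ s → s ≤ t → γ * (t - s) - ε * t - K ≤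
      ({n | s < arr n ∧ arr n ≤ t}.ncard : ℝ) -
      ({n | s < dep n ∧ dep n ≤ t ∧ n ∈ {n | u n < p}}.ncard : ℝ)) :
    ∃ c' : ℝ, 0 < c' ∧ ∀ᶠ t in atTop, c' * t ≤ x t i := by
  classical
  obtain ⟨t0, ht0⟩ := eventually_atTop.1 hgrow
  -- choose the slope
  set κ : ℝ := min (p * (a (i - j) * c)) (γ / 2) with hκdef
  have hκ : 0 < κ := lt_min (by positivity) (by positivity)
  obtain ⟨K, hK⟩ := hZ (κ / 4) (by positivity)
  set t1 : ℝ := max t0 1 with ht1
  have ht1pos : 0 < t1 := lt_of_lt_of_le zero_lt_one (le_max_right _ _)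
  refine ⟨κ / 2, by positivity, ?_⟩
  have hev : ∀ᶠ t : ℝ in atTop, t1 ≤ t ∧ (γ * t1 + |K| + 1) * 4 / κ ≤ t := by
    exact (eventually_ge_atTop t1).and (eventually_ge_atTop _)
  filter_upwards [hev] with t ht
  obtain ⟨htt1, htt2⟩ := ht
  have hbig : γ * t1 + |K| + 1 ≤ κ / 4 * t := by
    rw [div_le_iff₀ hκ] at htt2
    linarith
  have hstep := hdyni.step hmono ht1pos.le htt1 {n | u n < p} (fun s => κ * s)
    (by intro s s' hss; exact mul_le_mul_of_nonneg_left hss hκ.le)
    (by
      intro n hacc hn1 hn2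
      by_contra hcon
      push Not at hcon
      obtain ⟨hc1, hc2⟩ := hcon
      apply hc1
      show u n < p
      refine lt_of_lt_of_le hacc ?_
      have hDpos : 0 < dep n := ht1pos.trans hn1
      obtain ⟨cj, hcj1, hcj2⟩ := hleft (dep n) hDpos
      have hcj : c * dep n ≤ (cj : ℝ) := by
        have h5 : ∀ᶠ s in 𝓝[<] (dep n), t1 < s :=
          eventually_nhdsWithin_of_eventually_nhds (lt_mem_nhds hn1)
        have h6 : ∀ᶠ s in 𝓝[<] (dep n), c * s ≤ (cj : ℝ) := by
          filter_upwards [hcj1, h5] with s hs1 hs2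
          rw [← hs1]
          exact ht0 s ((le_max_left _ _).trans hs2.le)
        have hcont : Tendsto (fun s : ℝ => c * s) (𝓝[<] (dep n)) (𝓝 (c * dep n)) := by
          have : Continuous (fun s : ℝ => c * s) := by fun_prop
          exact (this.tendsto _).mono_left nhdsWithin_le_nhds
        exact le_of_tendsto hcont h6
      -- bound the rate
      set y : Site d → ℕ := fun k => Function.leftLim (fun s => x s k) (dep n) with hy
      have hyj : c * dep n ≤ (y j : ℝ) := by
        rw [hy]; simp only [hcj2]; exact hcj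
      have hyi : (y i : ℝ) ≤ κ * dep n := hc2
      have hden : a (i - j) * (y j : ℝ) ≤ ∑ᶠ k, a k * (y (i - k) : ℝ) := by
        have hfin : (Function.support (fun k => a k * (y (i - k) : ℝ))).Finite := by
          apply ha.finite_support.subset
          intro k hk
          rw [Function.mem_support] at hk ⊢
          exact left_ne_zero_of_mul hk
        have h7 := single_le_finsum (i - j) hfin
          (fun k => mul_nonneg (ha.nonneg k) (Nat.cast_nonneg _))
        simpa using h7
      unfold departureRate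
      have hpos1 : 0 < a (i - j) * (c * dep n) := by positivity
      have hpos2 : 0 < ∑ᶠ k, a k * (y (i - k) : ℝ) :=
        lt_of_lt_of_le hpos1 ((mul_le_mul_of_nonneg_left hyj haij.le).trans hden)
      rw [div_le_iff₀ hpos2]
      calc (y i : ℝ) ≤ κ * dep n := hyi
        _ ≤ p * (a (i - j) * c) * dep n :=
            mul_le_mul_of_nonneg_right (min_le_left _ _) hDpos.le
        _ = p * (a (i - j) * (c * dep n)) := by ring
        _ ≤ p * (a (i - j) * (y j : ℝ)) :=
            mul_le_mul_of_nonneg_left (mul_le_mul_of_nonneg_left hyj haij.le) hp.le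
        _ ≤ p * ∑ᶠ k, a k * (y (i - k) : ℝ) := mul_le_mul_of_nonneg_left hden hp.le)
  have hKabs := le_abs_self K
  have htpos : 0 < t := lt_of_lt_of_le ht1pos htt1
  have hκγ : κ ≤ γ / 2 := min_le_right _ _
  rcases hstep with hA | ⟨s, hs1, hs2, hs3, hs4⟩
  · have hZ1 := hK t1 t ht1pos.le htt1
    have hx0 : (0 : ℝ) ≤ x t1 i := Nat.cast_nonneg _
    have : κ * t ≤ γ / 2 * t := mul_le_mul_of_nonneg_right hκγ htpos.le
    have hγt : 0 < γ * t := by positivity
    nlinarith
  · have hZ1 := hK s t (ht1pos.le.trans hs1) hs2.le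
    have e1 : κ * (t - s) ≤ γ * (t - s) :=
      mul_le_mul_of_nonneg_right (by linarith) (by linarith)
    have hγt1 : 0 < γ * t1 := by positivity
    have hs3' : κ * s < (x s i : ℝ) := hs3
    have hs4' : (x s i : ℝ) - 1 + ({n | s < arr n ∧ arr n ≤ t}.ncard : ℝ)
        - ({n | s < dep n ∧ dep n ≤ t ∧ n ∈ {n | u n < p}}.ncard : ℝ) ≤ x t i := hs4
    nlinarith

end Pool.Agent.Lib.MP_87e9f0_pr
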