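import Pool.Agent.Lib.MP_87e9f0_pr.Block

set_option autoImplicit false

open MeasureTheory ProbabilityTheory Filter Topology

namespace Pool.Agent.Lib.MP_87e9f0_pr

lemma count_upper (T : ℕ → ℝ) {M : ℕ} {β C t : ℝ} (hβ : 0 < β) (htC : 0 ≤ t + C)
    (h : ∀ n : ℕ, β * n - C ≤ T (M + n)) :
    {n | T n ≤ t}.Finite ∧ ({n | T n ≤ t}.ncard : ℝ) ≤ M + (t + C) / β + 1 := by
  have hsub : {n | T n ≤ t} ⊆ (Finset.range (M + ⌊(t + C) / β⌋₊ + 1) : Set ℕ) := by
    intro n hn
    simp only [Finset.coe_range, Set.mem_Iio]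
    by_contra hcon
    push Not at hcon
    obtain ⟨k, rfl⟩ : ∃ k, n = M + k := ⟨n - M, by omega⟩
    have hk : ⌊(t + C) / β⌋₊ < k := by omega
    have hk' : (t + C) / β < k := Nat.lt_of_floor_lt hk
    rw [div_lt_iff₀ hβ] at hk'
    have := h k
    have hn' : T (M + k) ≤ t := hn
    nlinarith
  refine ⟨(Finset.finite_toSet _).subset hsub, ?_⟩
  have h1 := Set.ncard_le_ncard hsub (Finset.finite_toSet _)
  rw [Set.ncard_coe_finset, Finset.card_range] at h1
  have h2 : (⌊(t + C) / β⌋₊ : ℝ) ≤ (t + C) / β := Nat.floor_le (div_nonneg htC hβ.le)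
  have h3 : ({n | T n ≤ t}.ncard : ℝ) ≤ ((M + ⌊(t + C) / β⌋₊ + 1 : ℕ) : ℝ) := by exact_mod_cast h1
  push_cast at h3
  linarith

lemma count_lower (T : ℕ → ℝ) (hT : Monotone T) {M : ℕ} {α C t : ℝ} (hα : 0 < α)
    (hfin : {n | T n ≤ t}.Finite) (h : ∀ n : ℕ, T (M + n) ≤ α * n + C)
    (hM : ∀ n, n < M → T n ≤ t) :
    (M : ℝ) + (t - C) / α ≤ ({n | T n ≤ t}.ncard : ℝ) := by
  rcases lt_or_ge t C with htC | htC
  · have hsub : (Finset.range M : Set ℕ) ⊆ {n | T n ≤ t} := by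
      intro n hn
      exact hM n (by simpa using hn)
    have h1 := Set.ncard_le_ncard hsub hfin
    rw [Set.ncard_coe_finset, Finset.card_range] at h1
    have h2 : (t - C) / α ≤ 0 := div_nonpos_of_nonpos_of_nonneg (by linarith) hα.le
    have h3 : (M : ℝ) ≤ ({n | T n ≤ t}.ncard : ℝ) := by exact_mod_cast h1
    linarith
  · set k := ⌊(t - C) / α⌋₊ with hk
    have hk1 : (k : ℝ) ≤ (t - C) / α := Nat.floor_le (div_nonneg (by linarith) hα.le)
    have hk2 : (t - C) / α < k + 1 := Nat.lt_floor_add_one _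
    have hTk : T (M + k) ≤ t := by
      have := h k
      rw [le_div_iff₀ hα] at hk1
      linarith
    have hsub : (Finset.range (M + k + 1) : Set ℕ) ⊆ {n | T n ≤ t} := by
      intro n hn
      have hn' : n < M + k + 1 := by simpa using hn
      exact (hT (by omega : n ≤ M + k)).trans hTk
    have h1 := Set.ncard_le_ncard hsub hfin
    rw [Set.ncard_coe_finset, Finset.card_range] at h1
    have h3 : ((M + k + 1 : ℕ) : ℝ) ≤ ({n | T n ≤ t}.ncard : ℝ) := by exact_mod_cast h1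
    push_cast at h3
    linarith

lemma setOf_le_eq_range (T : ℕ → ℝ) (hT : Monotone T) {t : ℝ} (hfin : {n | T n ≤ t}.Finite) (n : ℕ) :
    T n ≤ t ↔ n < {n | T n ≤ t}.ncard := by
  classical
  have hex : ∃ n, ¬ T n ≤ t := by
    by_contra hcon
    push Not at hcon
    apply Set.infinite_univ (α := ℕ)
    convert hfin
    ext n
    simp [hcon n]
  obtain ⟨k, hk1, hk2⟩ : ∃ k, ¬ T k ≤ t ∧ ∀ m, m < k → T m ≤ t := by
    refine ⟨Nat.find hex, Nat.find_spec hex, fun m hm => ?_⟩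
    have := Nat.find_min hex hm
    push Not at this
    exact this
  have hset : {n | T n ≤ t} = (Finset.range k : Set ℕ) := by
    ext m
    simp only [Set.mem_ofPred_eq, Finset.coe_range, Set.mem_Iio]
    constructor
    · intro hm
      by_contra hcon
      push Not at hcon
      exact hk1 ((hT hcon).trans hm)
    · intro hm
      exact hk2 m hm
  have hcard : {n | T n ≤ t}.ncard = k := by
    rw [hset, Set.ncard_coe_finset, Finset.card_range]
  rw [hcard]
  have : n ∈ {n | T n ≤ t} ↔ n ∈ (Finset.range k : Set ℕ) := by rw [hset]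
  simpa using this

/-- Lower bound on the increments of (arrivals - good departures) from linear bounds. -/
lemma increments_lower (arr dep : ℕ → ℝ) (u : ℕ → ℝ) (harr : Monotone arr) (hdep : Monotone dep)
    {M : ℕ} {α β α' β' C p ε K : ℝ} (hα : 0 < α) (hβ : 0 < β) (hα' : 0 < α') (hβ' : 0 < β')
    (hC : 0 ≤ C) (hp : ε ≤ p) (hε : 0 ≤ ε)
    (hA1 : ∀ n : ℕ, arr (M + n) ≤ α * n + C) (hA2 : ∀ n : ℕ, β * n - C ≤ arr (M + n))
    (hD1 : ∀ n : ℕ, dep n ≤ α' * n + C) (hD2 : ∀ n : ℕ, β' * n - C ≤ dep n)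
    (hU : ∀ n : ℕ, |(((Finset.range n).filter (fun k => u k < p)).card : ℝ) - p * n| ≤ ε * n + K)
    {s t : ℝ} (hs : 0 ≤ s) (hst : s ≤ t) (hM : ∀ n, n < M → arr n ≤ s) :
    (1 / α - (p + ε) / β') * t - (1 / β - (p - ε) / α') * s
      - (C / α + C / β + 1 + (p + ε) * (C / β' + 1) + 2 * K + (p - ε) * C / α') ≤
    ({n | s < arr n ∧ arr n ≤ t}.ncard : ℝ) -
      ({n | s < dep n ∧ dep n ≤ t ∧ n ∈ {n | u n < p}}.ncard : ℝ) := by
  classical
  have ht : 0 ≤ t := hs.trans hst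
  have hAt := count_upper arr hβ (by linarith : 0 ≤ t + C) hA2
  have hAs := count_upper arr hβ (by linarith : 0 ≤ s + C) hA2
  have hD2' : ∀ n : ℕ, β' * n - C ≤ dep (0 + n) := by intro n; rw [zero_add]; exact hD2 n
  have hD1' : ∀ n : ℕ, dep (0 + n) ≤ α' * n + C := by intro n; rw [zero_add]; exact hD1 n
  have hDt := count_upper dep hβ' (by linarith : 0 ≤ t + C) hD2'
  have hDs := count_upper dep hβ' (by linarith : 0 ≤ s + C) hD2'
  have hAtl := count_lower arr harr hα hAt.1 hA1 (fun n hn => (hM n hn).trans hst)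
  have hDsl := count_lower dep hdep hα' hDs.1 hD1' (by intro n hn; omega)
  -- splitting
  have hsplitA := ncard_split arr Set.univ hst hAt.1
  simp only [Set.mem_univ, and_true] at hsplitA
  have hsplitD := ncard_split dep {n | u n < p} hst hDt.1
  have hG : ∀ r : ℝ, {n | dep n ≤ r}.Finite →
      {n | dep n ≤ r ∧ n ∈ {n | u n < p}}.ncard
        = ((Finset.range ({n | dep n ≤ r}.ncard)).filter (fun k => u k < p)).card := by
    intro r hr
    rw [← Set.ncard_coe_finset]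
    congr 1
    ext n
    simp only [Set.mem_ofPred_eq, Finset.coe_filter, Finset.mem_range]
    rw [setOf_le_eq_range dep hdep hr n]
  rw [hG t hDt.1, hG s hDs.1] at hsplitD
  have hsA : ({n | arr n ≤ t}.ncard : ℝ)
      = ({n | arr n ≤ s}.ncard : ℝ) + ({n | s < arr n ∧ arr n ≤ t}.ncard : ℝ) := by
    exact_mod_cast hsplitA
  have hsD : ((((Finset.range ({n | dep n ≤ t}.ncard)).filter (fun k => u k < p)).card : ℕ) : ℝ)
      = ((((Finset.range ({n | dep n ≤ s}.ncard)).filter (fun k => u k < p)).card : ℕ) : ℝ)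
        + ({n | s < dep n ∧ dep n ≤ t ∧ n ∈ {n | u n < p}}.ncard : ℝ) := by
    exact_mod_cast hsplitD
  have hUt := (abs_le.1 (hU ({n | dep n ≤ t}.ncard))).2
  have hUs := (abs_le.1 (hU ({n | dep n ≤ s}.ncard))).1
  have e1 : (p + ε) * ({n | dep n ≤ t}.ncard : ℝ) ≤ (p + ε) * ((0 : ℕ) + (t + C) / β' + 1) :=
    mul_le_mul_of_nonneg_left hDt.2 (by linarith)
  have e2 : (p - ε) * (((0 : ℕ) : ℝ) + (s - C) / α') ≤ (p - ε) * ({n | dep n ≤ s}.ncard : ℝ) :=
    mul_le_mul_of_nonneg_left hDsl (by linarith)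
  have h1 := hAs.2
  have key : (1 / α - (p + ε) / β') * t - (1 / β - (p - ε) / α') * s
      - (C / α + C / β + 1 + (p + ε) * (C / β' + 1) + 2 * K + (p - ε) * C / α')
      = ((t - C) / α - (s + C) / β - 1) - ((p + ε) * ((t + C) / β' + 1) + K
        - ((p - ε) * ((s - C) / α') - K)) := by
    ring
  rw [key]
  simp only [Nat.cast_zero, zero_add] at e1 e2
  linarith

/-- Choice of the accuracy `ε'`. -/
lemma exists_accuracy {lam p ε : ℝ} (hlam : 0 < lam) (hp : 0 < p) (hε : 0 < ε) :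
    ∃ ε' : ℝ, 0 < ε' ∧ ε' ≤ p ∧ ε' < 1 / lam ∧ ε' < 1 ∧
      (lam - p) - ε / 2 ≤ 1 / (1 / lam + ε') - (p + ε') / (1 - ε') ∧
      1 / (1 / lam - ε') - (p - ε') / (1 + ε') ≤ (lam - p) + ε / 2 := by
  have c1 : Tendsto (fun e : ℝ => 1 / (1 / lam + e) - (p + e) / (1 - e)) (𝓝 0)
      (𝓝 (1 / (1 / lam + 0) - (p + 0) / (1 - 0))) := by
    apply ContinuousAt.tendsto
    apply ContinuousAt.sub
    · apply ContinuousAt.div continuousAt_const (by fun_prop)
      simp [hlam.ne']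
    · apply ContinuousAt.div (by fun_prop) (by fun_prop)
      norm_num
  have c2 : Tendsto (fun e : ℝ => 1 / (1 / lam - e) - (p - e) / (1 + e)) (𝓝 0)
      (𝓝 (1 / (1 / lam - 0) - (p - 0) / (1 + 0))) := by
    apply ContinuousAt.tendsto
    apply ContinuousAt.sub
    · apply ContinuousAt.div continuousAt_const (by fun_prop)
      simp [hlam.ne']
    · apply ContinuousAt.div (by fun_prop) (by fun_prop)
      norm_num
  have v1 : 1 / (1 / lam + 0) - (p + 0) / (1 - 0) = lam - p := by simp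
  have v2 : 1 / (1 / lam - 0) - (p - 0) / (1 + 0) = lam - p := by simp
  rw [v1] at c1
  rw [v2] at c2
  have e1 : ∀ᶠ e : ℝ in 𝓝[>] 0, (lam - p) - ε / 2 < 1 / (1 / lam + e) - (p + e) / (1 - e) :=
    (c1.mono_left nhdsWithin_le_nhds).eventually (lt_mem_nhds (by linarith))
  have e2 : ∀ᶠ e : ℝ in 𝓝[>] 0, 1 / (1 / lam - e) - (p - e) / (1 + e) < (lam - p) + ε / 2 :=
    (c2.mono_left nhdsWithin_le_nhds).eventually (gt_mem_nhds (by linarith))
  have e3 : ∀ᶠ e : ℝ in 𝓝[>] 0, e < min p (min (1 / lam) 1) :=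
    eventually_nhdsWithin_of_eventually_nhds (gt_mem_nhds (by positivity))
  have e4 : ∀ᶠ e : ℝ in 𝓝[>] 0, 0 < e := self_mem_nhdsWithin
  obtain ⟨e, he1, he2, he3, he4⟩ := (e1.and (e2.and (e3.and e4))).exists
  exact ⟨e, he4, (he3.trans_le (min_le_left _ _)).le,
    he3.trans_le ((min_le_right _ _).trans (min_le_left _ _)),
    he3.trans_le ((min_le_right _ _).trans (min_le_right _ _)), he1.le, he2.le⟩

end Pool.Agent.Lib.MP_87e9f0_pr
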