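import Mathlib

/-!
# Interference queueing networks: definitions

The objects of the problem: interference sequences on `ℤ^d`, the graphical data (independent
Poisson arrivals, potential departures and acceptance marks at every site), the network process
started from empty queues, and stability.
-/

set_option autoImplicit false

open MeasureTheory ProbabilityTheory Filter Topology

namespace Pool.Agent.Lib.MP_87e9f0_pr

/-- The sites of the lattice `ℤ^d`. -/
abbrev Site (d : ℕ) : Type := Fin d → ℤ

/-- `a` is an interference sequence on `ℤ^d`: nonnegative, `a 0 = 1`, symmetric, finitely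
supported, and irreducible (every site is a nonempty finite sum of sites with `a > 0`). -/
structure IsInterference {d : ℕ} (a : Site d → ℝ) : Prop where
  nonneg : ∀ i, 0 ≤ a i
  zero : a 0 = 1
  symm : ∀ i, a i = a (-i)
  finite_support : (Function.support a).Finite
  irreducible : ∀ z : Site d, ∃ l : List (Site d), l ≠ [] ∧ (∀ i ∈ l, 0 < a i) ∧ l.sum = z

/-- The departure rate of queue `i` in the configuration `y`:
`y_i / ∑_j a_j y_{i-j}` (it is `0` when `y_i = 0`). -/
noncomputable def departureRate {d : ℕ} (a : Site d → ℝ) (y : Site d → ℕ) (i : Site d) : ℝ :=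
  (y i : ℝ) / ∑ᶠ j, a j * (y (i - j) : ℝ)

/-- The three kinds of random inputs attached to a site: gaps between successive arrivals, gaps
between successive potential departures, and acceptance marks of the potential departures. -/
inductive Kind : Type
  | arrival
  | departure
  | mark

/-- The laws of the inputs: exponential of rate `lam` for the arrival gaps, exponential of rate
`1` for the gaps of potential departures, uniform on `[0,1]` for the marks. -/
noncomputable def inputLaw (lam : ℝ) : Kind → Measure ℝ
  | Kind.arrival => expMeasure lam
  | Kind.departure => expMeasure 1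
  | Kind.mark => volume.restrict (Set.Icc 0 1)

/-- `ξ (k, i, n)` is the `n`-th input of kind `k` at site `i`.  All inputs are independent and have
the prescribed laws; so the arrivals at the sites form independent Poisson processes of rate
`lam`, the potential departures form independent Poisson processes of rate `1`, and each potential
departure carries an independent uniform mark. -/
structure IsGraphicalData {d : ℕ} {Ω : Type*} [MeasurableSpace Ω] (P : Measure Ω) (lam : ℝ)
    (ξ : Kind × Site d × ℕ → Ω → ℝ) : Prop where
  measurable : ∀ k, Measurable (ξ k)
  law : ∀ k, P.map (ξ k) = inputLaw lam k.1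
  indep : iIndepFun ξ P

/-- The time of the `n`-th event (`n = 0, 1, 2, …`) of kind `k` (arrival or potential departure)
at site `i`: the sum of the first `n + 1` gaps. -/
def eventTime {d : ℕ} {Ω : Type*} (ξ : Kind × Site d × ℕ → Ω → ℝ) (k : Kind) (i : Site d) (n : ℕ)
    (ω : Ω) : ℝ :=
  ∑ m ∈ Finset.range (n + 1), ξ (k, i, m) ω

/-- The `n`-th potential departure at site `i` is accepted along the path `x`: its mark is smaller
than the departure rate of queue `i` in the configuration just before it. -/
def Accepted {d : ℕ} {Ω : Type*} (a : Site d → ℝ) (ξ : Kind × Site d × ℕ → Ω → ℝ) (ω : Ω)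
    (x : ℝ → Site d → ℕ) (i : Site d) (n : ℕ) : Prop :=
  ξ (Kind.mark, i, n) ω < departureRate a
    (fun j => Function.leftLim (fun s => x s j) (eventTime ξ Kind.departure i n ω)) i

/-- `x` is the network process driven by the graphical data `ξ` and started from empty queues:
almost surely, for every time `t ≥ 0` and site `i`,
`x_i(t) + #{accepted potential departures at i up to t} = #{arrivals at i up to t}`. -/
structure IsNetworkProcess {d : ℕ} {Ω : Type*} [MeasurableSpace Ω] (P : Measure Ω)
    (a : Site d → ℝ) (ξ : Kind × Site d × ℕ → Ω → ℝ) (x : ℝ → Ω → Site d → ℕ) : Prop where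
  measurable : ∀ t, Measurable (x t)
  dynamics : ∀ᵐ ω ∂P, ∀ t : ℝ, 0 ≤ t → ∀ i : Site d,
    (x t ω i : ℕ∞) + {n : ℕ | eventTime ξ Kind.departure i n ω ≤ t ∧
        Accepted a ξ ω (fun s => x s ω) i n}.encard
      = {n : ℕ | eventTime ξ Kind.arrival i n ω ≤ t}.encard

/-- Stability: the queue lengths converge in distribution, as `t → ∞`, to an almost surely finite
random configuration (a probability law on `ℕ^(ℤ^d)`). -/
def Stable {d : ℕ} {Ω : Type*} [MeasurableSpace Ω] (P : Measure Ω) [IsProbabilityMeasure P]
    (x : ℝ → Ω → Site d → ℕ) : Prop :=
  ∃ ν : ProbabilityMeasure (Site d → ℕ),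
    TendstoInDistribution x atTop id (fun _ => P) (ν : Measure (Site d → ℕ))

end Pool.Agent.Lib.MP_87e9f0_pr
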