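import Pool.Agent.Lib.MP_87e9f0_pr.Laws

set_option autoImplicit false

open MeasureTheory ProbabilityTheory Filter Topology

namespace Pool.Agent.Lib.MP_87e9f0_pr

/-- Linear bounds for the inputs at site `i`. -/
def LinBound {d : ℕ} (lam p ε K : ℝ) (w : Kind × Site d × ℕ → ℝ) (i : Site d) : Prop :=
  (∀ n : ℕ, |∑ k ∈ Finset.range n, w (Kind.arrival, i, k) - (1 / lam) * n| ≤ ε * n + K) ∧
  (∀ n : ℕ, |∑ k ∈ Finset.range n, w (Kind.departure, i, k) - 1 * n| ≤ ε * n + K) ∧
  (∀ n : ℕ, |∑ k ∈ Finset.range n, (if w (Kind.mark, i, k) < p then (1 : ℝ) else 0) - p * n|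
    ≤ ε * n + K)

lemma LinBound.mono {d : ℕ} {lam p ε K K' : ℝ} {w : Kind × Site d × ℕ → ℝ} {i : Site d}
    (h : LinBound lam p ε K w i) (hK : K ≤ K') : LinBound lam p ε K' w i :=
  ⟨fun n => (h.1 n).trans (by linarith), fun n => (h.2.1 n).trans (by linarith),
    fun n => (h.2.2 n).trans (by linarith)⟩

lemma measurableSet_linBound {d : ℕ} {Ω' : Type*} (m' : MeasurableSpace Ω')
    {w : Kind × Site d × ℕ → Ω' → ℝ} {i : Site d} (lam p ε K : ℝ)
    (hw : ∀ k n, Measurable[m'] (w (k, i, n))) :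
    MeasurableSet[m'] {ω | LinBound lam p ε K (fun k => w k ω) i} := by
  have h1 : ∀ n : ℕ, MeasurableSet[m']
      {ω | |∑ k ∈ Finset.range n, w (Kind.arrival, i, k) ω - (1 / lam) * n| ≤ ε * n + K} := by
    intro n
    apply measurableSet_le _ measurable_const
    exact (Measurable.sub (Finset.measurable_sum _ (fun k _ => hw _ _)) measurable_const).abs
  have h2 : ∀ n : ℕ, MeasurableSet[m']
      {ω | |∑ k ∈ Finset.range n, w (Kind.departure, i, k) ω - 1 * n| ≤ ε * n + K} := by
    intro n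
    apply measurableSet_le _ measurable_const
    exact (Measurable.sub (Finset.measurable_sum _ (fun k _ => hw _ _)) measurable_const).abs
  have h3 : ∀ n : ℕ, MeasurableSet[m']
      {ω | |∑ k ∈ Finset.range n, (if w (Kind.mark, i, k) ω < p then (1 : ℝ) else 0) - p * n|
        ≤ ε * n + K} := by
    intro n
    apply measurableSet_le _ measurable_const
    refine (Measurable.sub (Finset.measurable_sum _ (fun k _ => ?_)) measurable_const).abs
    exact Measurable.ite (measurableSet_lt (hw _ _) measurable_const) measurable_const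
      measurable_const
  have h4 : {ω | LinBound lam p ε K (fun k => w k ω) i} =
      (⋂ n : ℕ, {ω | |∑ k ∈ Finset.range n, w (Kind.arrival, i, k) ω - (1 / lam) * n|
        ≤ ε * n + K}) ∩
      ((⋂ n : ℕ, {ω | |∑ k ∈ Finset.range n, w (Kind.departure, i, k) ω - 1 * n| ≤ ε * n + K}) ∩
      (⋂ n : ℕ, {ω | |∑ k ∈ Finset.range n,
        (if w (Kind.mark, i, k) ω < p then (1 : ℝ) else 0) - p * n| ≤ ε * n + K})) := by
    ext ω
    simp only [LinBound, Set.mem_ofPred_eq, Set.mem_inter_iff, Set.mem_iInter]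
  rw [h4]
  exact (MeasurableSet.iInter h1).inter ((MeasurableSet.iInter h2).inter (MeasurableSet.iInter h3))

section AE

variable {d : ℕ} {Ω : Type*} [MeasurableSpace Ω] {P : Measure Ω} [IsProbabilityMeasure P]
  {lam : ℝ} {ξ : Kind × Site d × ℕ → Ω → ℝ}

lemma ae_linBound (hξ : IsGraphicalData P lam ξ) (hlam : 0 < lam) {p : ℝ} (hp0 : 0 ≤ p)
    (hp1 : p ≤ 1) :
    ∀ᵐ ω ∂P, ∀ i : Site d, ∀ ε : ℝ, 0 < ε → ∃ K : ℝ, 0 ≤ K ∧
      LinBound lam p ε K (fun k => ξ k ω) i := by
  rw [ae_all_iff]
  intro i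
  have h1 := slln_bound (P := P) (fun n => ξ (Kind.arrival, i, n))
    (hξ.indep.precomp (g := fun n : ℕ => (Kind.arrival, i, n)) (by intro a b h; simpa using h))
    (fun n => hξ.measurable _) (ν := expMeasure lam) (fun n => hξ.law _)
    (integrable_id_expMeasure hlam)
  have h2 := slln_bound (P := P) (fun n => ξ (Kind.departure, i, n))
    (hξ.indep.precomp (g := fun n : ℕ => (Kind.departure, i, n)) (by intro a b h; simpa using h))
    (fun n => hξ.measurable _) (ν := expMeasure 1) (fun n => hξ.law _)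
    (integrable_id_expMeasure one_pos)
  have hind : Measurable (fun x : ℝ => if x < p then (1 : ℝ) else 0) :=
    Measurable.ite measurableSet_Iio measurable_const measurable_const
  have h3 := slln_bound (P := P)
    (fun n ω => if ξ (Kind.mark, i, n) ω < p then (1 : ℝ) else 0)
    ((hξ.indep.precomp (g := fun n : ℕ => (Kind.mark, i, n))
      (by intro a b h; simpa using h)).comp (fun _ x => if x < p then (1 : ℝ) else 0)
      (fun _ => hind))
    (fun n => hind.comp (hξ.measurable _))
    (ν := (volume.restrict (Set.Icc (0 : ℝ) 1)).map (fun x : ℝ => if x < p then (1 : ℝ) else 0))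
    (fun n => by
      have := hξ.law (Kind.mark, i, n)
      have h4 : (fun ω => if ξ (Kind.mark, i, n) ω < p then (1 : ℝ) else 0)
          = (fun x : ℝ => if x < p then (1 : ℝ) else 0) ∘ (ξ (Kind.mark, i, n)) := rfl
      rw [h4, ← Measure.map_map hind (hξ.measurable _), this]
      rfl)
    (by
      rw [integrable_map_measure (by exact measurable_id.aestronglyMeasurable) hind.aemeasurable]
      apply Integrable.of_bound (C := 1)
      · exact (hind.aestronglyMeasurable)
      · exact ae_of_all _ (fun x => by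
          simp only [Function.comp]
          split_ifs <;> simp))
  have hm : ∫ x, x ∂((volume.restrict (Set.Icc (0 : ℝ) 1)).map
      (fun x : ℝ => if x < p then (1 : ℝ) else 0)) = p := by
    rw [integral_map hind.aemeasurable (by exact measurable_id.aestronglyMeasurable)]
    have h5 : (fun x : ℝ => if x < p then (1 : ℝ) else 0)
        = Set.indicator (Set.Iio p) (fun _ => (1 : ℝ)) := by
      funext x
      simp [Set.indicator_apply]
    rw [h5, integral_indicator measurableSet_Iio, setIntegral_const]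
    simp only [measureReal_def]
    rw [mark_Iio hp0 hp1, ENNReal.toReal_ofReal hp0]
    simp
  rw [integral_id_expMeasure hlam] at h1
  rw [integral_id_expMeasure one_pos] at h2
  rw [hm] at h3
  filter_upwards [h1, h2, h3] with ω hω1 hω2 hω3 ε hε
  obtain ⟨K1, hK1, hb1⟩ := hω1 ε hε
  obtain ⟨K2, hK2, hb2⟩ := hω2 ε hε
  obtain ⟨K3, hK3, hb3⟩ := hω3 ε hε
  refine ⟨max K1 (max K2 K3), le_max_of_le_left hK1, ?_, ?_, ?_⟩
  · intro n
    exact (hb1 n).trans (by gcongr; exact le_max_left _ _)
  · intro n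
    have := hb2 n
    rw [div_one] at this
    exact this.trans (by gcongr; exact (le_max_left _ _).trans (le_max_right _ _))
  · intro n
    exact (hb3 n).trans (by gcongr; exact (le_max_right _ _).trans (le_max_right _ _))

omit [IsProbabilityMeasure P] in
lemma ae_gaps_pos (hξ : IsGraphicalData P lam ξ) (hlam : 0 < lam) :
    ∀ᵐ ω ∂P, ∀ (i : Site d) (n : ℕ), 0 < ξ (Kind.arrival, i, n) ω ∧
      0 < ξ (Kind.departure, i, n) ω := by
  rw [ae_all_iff]
  intro i
  rw [ae_all_iff]
  intro n
  have h1 : ∀ᵐ x ∂(P.map (ξ (Kind.arrival, i, n))), 0 < x := by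
    rw [hξ.law]
    exact ae_pos_expMeasure hlam
  have h2 : ∀ᵐ x ∂(P.map (ξ (Kind.departure, i, n))), 0 < x := by
    rw [hξ.law]
    exact ae_pos_expMeasure one_pos
  filter_upwards [ae_of_ae_map (hξ.measurable _).aemeasurable h1,
    ae_of_ae_map (hξ.measurable _).aemeasurable h2] with ω a b
  exact ⟨a, b⟩

/-- The joint law of the inputs is the product measure. -/
lemma map_eq_infinitePi [∀ k, IsProbabilityMeasure (inputLaw lam k)]
    (hξ : IsGraphicalData P lam ξ) :
    P.map (fun ω k => ξ k ω) = Measure.infinitePi (fun k : Kind × Site d × ℕ => inputLaw lam k.1) := by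
  rw [(iIndepFun_iff_map_fun_eq_infinitePi_map (fun k => hξ.measurable k)).1 hξ.indep]
  congr
  funext k
  exact hξ.law k

omit [IsProbabilityMeasure P] in
/-- Reindexing graphical data by an injective map that preserves the kinds. -/
lemma IsGraphicalData.reindex (hξ : IsGraphicalData P lam ξ)
    {g : Kind × Site d × ℕ → Kind × Site d × ℕ} (hg : Function.Injective g)
    (hgk : ∀ k, (g k).1 = k.1) : IsGraphicalData P lam (fun k => ξ (g k)) where
  measurable := fun k => hξ.measurable _
  law := fun k => by rw [hξ.law, hgk]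
  indep := hξ.indep.precomp hg

end AE

/-- Drop the first `M` arrival gaps and the first potential departure gap at every site. -/
def shift {d : ℕ} (M : ℕ) : Kind × Site d × ℕ → Kind × Site d × ℕ
  | (Kind.arrival, i, k) => (Kind.arrival, i, M + k)
  | (Kind.departure, i, k) => (Kind.departure, i, 1 + k)
  | (Kind.mark, i, k) => (Kind.mark, i, k)

lemma shift_injective {d : ℕ} (M : ℕ) : Function.Injective (shift (d := d) M) := by
  rintro ⟨k1, i1, n1⟩ ⟨k2, i2, n2⟩ h
  cases k1 <;> cases k2 <;> simp_all [shift]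

lemma shift_fst {d : ℕ} (M : ℕ) (k : Kind × Site d × ℕ) : (shift M k).1 = k.1 := by
  obtain ⟨k1, i1, n1⟩ := k
  cases k1 <;> rfl

/-- The favourable event for the block `B`: at every site of `B` the first `M` arrival gaps are at
most `1/M`, the first potential departure gap lies in `(1,2]`, and the remaining inputs satisfy
linear bounds. -/
def BlockEvent {d : ℕ} (B : Finset (Site d)) (M : ℕ) (lam p ε K : ℝ)
    (w : Kind × Site d × ℕ → ℝ) : Prop :=
  (∀ i ∈ B, (∀ k < M, w (Kind.arrival, i, k) ∈ Set.Ioc (0 : ℝ) (1 / M)) ∧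
    w (Kind.departure, i, 0) ∈ Set.Ioc (1 : ℝ) 2) ∧
  ∀ i ∈ B, LinBound lam p ε K (fun k => w (shift M k)) i

lemma measurableSet_init {d : ℕ} {Ω' : Type*} (m' : MeasurableSpace Ω') (B : Finset (Site d))
    (M : ℕ) {w : Kind × Site d × ℕ → Ω' → ℝ}
    (hwA : ∀ i ∈ B, ∀ k < M, Measurable[m'] (w (Kind.arrival, i, k)))
    (hwD : ∀ i ∈ B, Measurable[m'] (w (Kind.departure, i, 0))) :
    MeasurableSet[m'] {ω | ∀ i ∈ B, (∀ k < M, w (Kind.arrival, i, k) ω ∈ Set.Ioc (0 : ℝ) (1 / M)) ∧
      w (Kind.departure, i, 0) ω ∈ Set.Ioc (1 : ℝ) 2} := by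
  have h : {ω | ∀ i ∈ B, (∀ k < M, w (Kind.arrival, i, k) ω ∈ Set.Ioc (0 : ℝ) (1 / M)) ∧
      w (Kind.departure, i, 0) ω ∈ Set.Ioc (1 : ℝ) 2}
      = ⋂ i ∈ B, ((⋂ k ∈ Finset.range M, (w (Kind.arrival, i, k)) ⁻¹' (Set.Ioc (0 : ℝ) (1 / M))) ∩
        (w (Kind.departure, i, 0)) ⁻¹' (Set.Ioc (1 : ℝ) 2)) := by
    ext ω
    simp
  rw [h]
  apply Finset.measurableSet_biInter
  intro i hi
  apply MeasurableSet.inter
  · apply Finset.measurableSet_biInter
    intro k hk
    exact hwA i hi k (Finset.mem_range.1 hk) measurableSet_Ioc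
  · exact hwD i hi measurableSet_Ioc

lemma measurableSet_lin {d : ℕ} {Ω' : Type*} (m' : MeasurableSpace Ω') (B : Finset (Site d))
    (lam p ε K : ℝ) {w : Kind × Site d × ℕ → Ω' → ℝ}
    (hw : ∀ k n, ∀ i ∈ B, Measurable[m'] (w (k, i, n))) :
    MeasurableSet[m'] {ω | ∀ i ∈ B, LinBound lam p ε K (fun k => w k ω) i} := by
  have h : {ω | ∀ i ∈ B, LinBound lam p ε K (fun k => w k ω) i}
      = ⋂ i ∈ B, {ω | LinBound lam p ε K (fun k => w k ω) i} := by
    ext ω
    simp
  rw [h]
  apply Finset.measurableSet_biInter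
  intro i hi
  exact measurableSet_linBound m' lam p ε K (fun k n => hw k n i hi)

lemma measurableSet_blockEvent {d : ℕ} {Ω' : Type*} (m' : MeasurableSpace Ω')
    (B : Finset (Site d)) (M : ℕ) (lam p ε K : ℝ) {w : Kind × Site d × ℕ → Ω' → ℝ}
    (hw : ∀ k n, ∀ i ∈ B, Measurable[m'] (w (k, i, n))) :
    MeasurableSet[m'] {ω | BlockEvent B M lam p ε K (fun k => w k ω)} := by
  have h1 := measurableSet_init m' B M (w := w) (fun i hi k _ => hw _ _ i hi)
    (fun i hi => hw _ _ i hi)
  have h2 := measurableSet_lin m' B lam p ε K (w := fun k => w (shift M k)) (by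
    intro k n i hi
    cases k <;> exact hw _ _ i hi)
  exact h1.inter h2

end Pool.Agent.Lib.MP_87e9f0_pr
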