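import Pool.Agent.Lib.MP_87e9f0_pr.Main

set_option autoImplicit false

open MeasureTheory ProbabilityTheory Filter Topology

namespace Pool.Agent.Lib.MP_87e9f0_pr

section Det

variable {d : ℕ}

/-- Number of customers in queue `j` just before time `s`, when only the sites of `B` are active
and the potential departures in `acc` are the accepted ones. -/
noncomputable def preState (arr dep : Site d → ℕ → ℝ) (B : Set (Site d))
    (acc : Site d → ℕ → Prop) (s : ℝ) (j : Site d) : ℕ :=
  open scoped Classical in
  if j ∈ B then {n | arr j n < s}.ncard - {m | dep j m < s ∧ acc j m}.ncard else 0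

/-- Picard iteration for the set of accepted potential departures. -/
noncomputable def accIter (a : Site d → ℝ) (arr dep u : Site d → ℕ → ℝ) (B : Set (Site d)) :
    ℕ → Site d → ℕ → Prop
  | 0 => fun _ _ => False
  | k + 1 => fun i n => i ∈ B ∧
      u i n < departureRate a (preState arr dep B (accIter a arr dep u B k) (dep i n)) i

/-- Number of potential departures in `B` before time `s`. -/
noncomputable def evCount (dep : Site d → ℕ → ℝ) (B : Finset (Site d)) (s : ℝ) : ℕ :=
  ∑ j ∈ B, {m | dep j m < s}.ncard

lemma preState_congr {arr dep : Site d → ℕ → ℝ} {B : Set (Site d)}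
    {acc acc' : Site d → ℕ → Prop} {s : ℝ}
    (h : ∀ j ∈ B, ∀ m, dep j m < s → (acc j m ↔ acc' j m)) (j : Site d) :
    preState arr dep B acc s j = preState arr dep B acc' s j := by
  unfold preState
  by_cases hj : j ∈ B
  · rw [if_pos hj, if_pos hj]
    congr 2
    ext m
    simp only [Set.mem_ofPred_eq]
    constructor
    · rintro ⟨h1, h2⟩; exact ⟨h1, (h j hj m h1).1 h2⟩
    · rintro ⟨h1, h2⟩; exact ⟨h1, (h j hj m h1).2 h2⟩
  · rw [if_neg hj, if_neg hj]

lemma evCount_lt {dep : Site d → ℕ → ℝ} {B : Finset (Site d)}
    (hfin : ∀ j t, {m | dep j m ≤ t}.Finite) {j : Site d} {m : ℕ} (hj : j ∈ B) {s : ℝ}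
    (h : dep j m < s) : evCount dep B (dep j m) < evCount dep B s := by
  unfold evCount
  have hf : ∀ k, {m | dep k m < s}.Finite := fun k =>
    (hfin k s).subset (fun m hm => (show dep k m ≤ s from le_of_lt hm))
  apply Finset.sum_lt_sum
  · intro k _
    exact Set.ncard_le_ncard (fun m hm => lt_trans hm h) (hf k)
  · refine ⟨j, hj, Set.ncard_lt_ncard ?_ (hf j)⟩
    refine ⟨fun m hm => lt_trans hm h, fun hsub => ?_⟩
    have : dep j m < dep j m := hsub (show dep j m < s from h)
    exact lt_irrefl _ this

lemma accIter_stable {a : Site d → ℝ} {arr dep u : Site d → ℕ → ℝ} {B : Finset (Site d)}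
    (hfin : ∀ j t, {m | dep j m ≤ t}.Finite) :
    ∀ N : ℕ, ∀ i n, evCount dep B (dep i n) = N → ∀ k k', N < k → N < k' →
      (accIter a arr dep u B k i n ↔ accIter a arr dep u B k' i n) := by
  intro N
  induction N using Nat.strong_induction_on with
  | _ N ih =>
  intro i n hN k k' hk hk'
  obtain ⟨k, rfl⟩ : ∃ l, k = l + 1 := ⟨k - 1, by omega⟩
  obtain ⟨k', rfl⟩ : ∃ l, k' = l + 1 := ⟨k' - 1, by omega⟩
  have h : preState arr dep B (accIter a arr dep u B k) (dep i n)
      = preState arr dep B (accIter a arr dep u B k') (dep i n) := by
    funext j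
    apply preState_congr
    intro j hj m hm
    have hlt := evCount_lt hfin (Finset.mem_coe.1 hj) hm
    rw [hN] at hlt
    exact ih _ hlt j m rfl k k' (by omega) (by omega)
  simp only [accIter, h]

/-- The accepted potential departures of the process restricted to the finite set `B`. -/
def accB (a : Site d → ℝ) (arr dep u : Site d → ℕ → ℝ) (B : Set (Site d)) (i : Site d)
    (n : ℕ) : Prop :=
  ∃ K : ℕ, ∀ k, K ≤ k → accIter a arr dep u B k i n

lemma accB_iff_iter {a : Site d → ℝ} {arr dep u : Site d → ℕ → ℝ} {B : Finset (Site d)}
    (hfin : ∀ j t, {m | dep j m ≤ t}.Finite) (i : Site d) (n k : ℕ)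
    (hk : evCount dep B (dep i n) < k) :
    accB a arr dep u B i n ↔ accIter a arr dep u B k i n := by
  constructor
  · rintro ⟨K, hK⟩
    have h1 := hK (max K k) (le_max_left _ _)
    exact (accIter_stable hfin _ i n rfl (max K k) k (lt_of_lt_of_le hk (le_max_right _ _)) hk).1 h1
  · intro h
    exact ⟨k, fun k' hk' => (accIter_stable hfin _ i n rfl k k' hk (lt_of_lt_of_le hk hk')).1 h⟩

lemma accB_fix {a : Site d → ℝ} {arr dep u : Site d → ℕ → ℝ} {B : Finset (Site d)}
    (hfin : ∀ j t, {m | dep j m ≤ t}.Finite) (i : Site d) (n : ℕ) :
    accB a arr dep u B i n ↔ i ∈ B ∧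
      u i n < departureRate a (preState arr dep B (accB a arr dep u B) (dep i n)) i := by
  rw [accB_iff_iter hfin i n (evCount dep B (dep i n) + 1) (by omega)]
  have h : preState arr dep B (accIter a arr dep u B (evCount dep B (dep i n))) (dep i n)
      = preState arr dep B (accB a arr dep u B) (dep i n) := by
    funext j
    apply preState_congr
    intro j hj m hm
    exact (accB_iff_iter hfin j m _ (evCount_lt hfin (Finset.mem_coe.1 hj) hm)).symm
  simp only [accIter, h, Finset.mem_coe]

/-- Deterministic assumptions on the event times and marks. -/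
structure NiceData (arr dep u : Site d → ℕ → ℝ) : Prop where
  finA : ∀ j t, {m | arr j m ≤ t}.Finite
  finD : ∀ j t, {m | dep j m ≤ t}.Finite
  mono : ∀ j, StrictMono (dep j)
  pos : ∀ j m, 0 < dep j m
  mark : ∀ j m, 0 ≤ u j m

lemma departureRate_pos_imp {a : Site d → ℝ} {y : Site d → ℕ} {i : Site d}
    (h : 0 < departureRate a y i) : 1 ≤ y i := by
  by_contra hcon
  have : y i = 0 := by omega
  unfold departureRate at h
  rw [this] at h
  simp at h

/-- A set of accepted departures such that acceptance implies a nonempty queue never makes the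
count negative. -/
lemma acc_count_le {arr dep u : Site d → ℕ → ℝ} (h : NiceData arr dep u) {B : Set (Site d)}
    {acc : Site d → ℕ → Prop}
    (hacc : ∀ i n, acc i n → 1 ≤ preState arr dep B acc (dep i n) i) (j : Site d) (s : ℝ) :
    {m | dep j m < s ∧ acc j m}.ncard ≤ {n | arr j n < s}.ncard := by
  classical
  -- induction over the potential departures of site `j` before `s`
  have main : ∀ N : ℕ, ∀ s, {m | dep j m < s}.ncard = N →
      {m | dep j m < s ∧ acc j m}.ncard ≤ {n | arr j n < s}.ncard := by
    intro N
    induction N using Nat.strong_induction_on with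
    | _ N ih =>
    intro s hN
    set A : Set ℕ := {m | dep j m < s ∧ acc j m} with hA
    have hAfin : A.Finite := (h.finD j s).subset (fun m hm => hm.1.le)
    by_cases hne : A.Nonempty
    · obtain ⟨m, hm, hmax⟩ := hAfin.toFinset.exists_max_image id (by simpa using hne)
      simp only [Set.Finite.mem_toFinset, id] at hm hmax
      obtain ⟨hm1, hm2⟩ := hm
      have hDfin : {m' | dep j m' < s}.Finite := (h.finD j s).subset
        (fun m' hx => (show dep j m' ≤ s from le_of_lt hx))
      have hlt : {m' | dep j m' < dep j m}.ncard < N := by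
        rw [← hN]
        apply Set.ncard_lt_ncard _ hDfin
        refine ⟨fun m' hm' => lt_trans hm' hm1, fun hsub => ?_⟩
        have : dep j m < dep j m := hsub (show dep j m < s from hm1)
        exact lt_irrefl _ this
      have h1 := ih _ hlt (dep j m) rfl
      have h2 := hacc j m hm2
      unfold preState at h2
      have hjB : j ∈ B := by
        by_contra hjB
        rw [if_neg hjB] at h2
        omega
      rw [if_pos hjB] at h2
      have hsub : A ⊆ insert m {m' | dep j m' < dep j m ∧ acc j m'} := by
        intro m' hm'
        rcases (hmax m' hm').lt_or_eq with h3 | h3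
        · exact Or.inr ⟨h.mono j h3, hm'.2⟩
        · exact Or.inl h3
      have hfin2 : {m' | dep j m' < dep j m ∧ acc j m'}.Finite :=
        (h.finD j (dep j m)).subset (fun m' hm' => hm'.1.le)
      have h3 := (Set.ncard_le_ncard hsub (hfin2.insert m)).trans (Set.ncard_insert_le _ _)
      have h4 : {n | arr j n < dep j m}.ncard ≤ {n | arr j n < s}.ncard :=
        Set.ncard_le_ncard (fun n hn => lt_trans hn hm1)
          ((h.finA j s).subset (fun n hn => (show arr j n ≤ s from le_of_lt hn)))
      omega
    · rw [Set.not_nonempty_iff_eq_empty.1 hne]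
      simp
  exact main _ s rfl

/-- Monotonicity in the set of active sites. -/
lemma preState_mono {a : Site d → ℝ} (ha : IsInterference a) {arr dep u : Site d → ℕ → ℝ}
    (h : NiceData arr dep u) {B B' : Finset (Site d)} (hBB : B ⊆ B') (s : ℝ) (j : Site d) :
    preState arr dep B (accB a arr dep u B) s j ≤ preState arr dep B' (accB a arr dep u B') s j := by
  classical
  have hacc : ∀ C : Finset (Site d), ∀ i n, accB a arr dep u C i n →
      1 ≤ preState arr dep C (accB a arr dep u C) (dep i n) i := by
    intro C i n hn
    rw [accB_fix h.finD] at hn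
    exact departureRate_pos_imp (lt_of_le_of_lt (h.mark i n) hn.2)
  have main : ∀ N : ℕ, ∀ s, evCount dep B s = N → ∀ j,
      preState arr dep B (accB a arr dep u B) s j
        ≤ preState arr dep B' (accB a arr dep u B') s j := by
    intro N
    induction N using Nat.strong_induction_on with
    | _ N ih =>
    intro s hN j
    by_cases hj : j ∈ B
    swap
    · have : preState arr dep B (accB a arr dep u B) s j = 0 := by
        unfold preState
        rw [if_neg (by simpa using hj)]
      omega
    have hj' : j ∈ B' := hBB hj
    have hc := acc_count_le h (hacc B) j s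
    have hc' := acc_count_le h (hacc B') j s
    have hB : preState arr dep B (accB a arr dep u B) s j
        = {n | arr j n < s}.ncard - {m | dep j m < s ∧ accB a arr dep u B j m}.ncard := by
      unfold preState
      rw [if_pos (by simpa using hj)]
    have hB' : preState arr dep B' (accB a arr dep u B') s j
        = {n | arr j n < s}.ncard - {m | dep j m < s ∧ accB a arr dep u B' j m}.ncard := by
      unfold preState
      rw [if_pos (by simpa using hj')]
    rw [hB, hB']
    -- it suffices to compare the numbers of accepted departures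
    suffices hs : {m | dep j m < s ∧ accB a arr dep u B' j m}.ncard
        ≤ {m | dep j m < s ∧ accB a arr dep u B j m}.ncard by omega
    set A : Set ℕ := {m | dep j m < s ∧ accB a arr dep u B' j m ∧ ¬ accB a arr dep u B j m}
      with hA
    have hAfin : A.Finite := (h.finD j s).subset (fun m hm => hm.1.le)
    by_cases hne : A.Nonempty
    · obtain ⟨m, hm, hmax⟩ := hAfin.toFinset.exists_max_image id (by simpa using hne)
      simp only [Set.Finite.mem_toFinset, id] at hm hmax
      obtain ⟨hm1, hm2, hm3⟩ := hm
      set D := dep j m with hD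
      have hlt : evCount dep B D < N := by
        rw [← hN]; exact evCount_lt h.finD hj hm1
      have hih := ih _ hlt D rfl
      -- the queue is strictly shorter in the smaller system just before `D`
      have hstrict : preState arr dep B (accB a arr dep u B) D j
          < preState arr dep B' (accB a arr dep u B') D j := by
        rcases (hih j).lt_or_eq with h1 | h1
        · exact h1
        · exfalso
          apply hm3
          rw [accB_fix h.finD] at hm2 ⊢
          refine ⟨hj, lt_of_lt_of_le hm2.2 ?_⟩
          unfold departureRate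
          rw [h1]
          have hfin : ∀ y : Site d → ℕ, (Function.support (fun k => a k * (y (j - k) : ℝ))).Finite := by
            intro y
            apply ha.finite_support.subset
            intro k hk
            rw [Function.mem_support] at hk ⊢
            exact left_ne_zero_of_mul hk
          have hsum : ∑ᶠ k, a k * (preState arr dep B (accB a arr dep u B) D (j - k) : ℝ)
              ≤ ∑ᶠ k, a k * (preState arr dep B' (accB a arr dep u B') D (j - k) : ℝ) := by
            refine finsum_le_finsum' (hfin _) (hfin _) (fun k => ?_)
            apply mul_le_mul_of_nonneg_left _ (ha.nonneg k)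
            exact_mod_cast hih (j - k)
          have hpos : 0 < ∑ᶠ k, a k * (preState arr dep B (accB a arr dep u B) D (j - k) : ℝ) := by
            have h2 := departureRate_pos_imp (lt_of_le_of_lt (h.mark j m) hm2.2)
            rw [← hD, ← h1] at h2
            have h3 := single_le_finsum (0 : Site d)
              (hfin (preState arr dep B (accB a arr dep u B) D))
              (fun k => mul_nonneg (ha.nonneg k) (Nat.cast_nonneg _))
            rw [ha.zero, sub_zero, one_mul] at h3
            have h4 : (1 : ℝ) ≤ (preState arr dep B (accB a arr dep u B) D j : ℝ) := by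
              exact_mod_cast h2
            linarith
          exact div_le_div_of_nonneg_left (Nat.cast_nonneg _) hpos hsum
      have hcD := acc_count_le h (hacc B) j D
      have hcD' := acc_count_le h (hacc B') j D
      have hBD : preState arr dep B (accB a arr dep u B) D j
          = {n | arr j n < D}.ncard - {m | dep j m < D ∧ accB a arr dep u B j m}.ncard := by
        unfold preState
        rw [if_pos (by simpa using hj)]
      have hBD' : preState arr dep B' (accB a arr dep u B') D j
          = {n | arr j n < D}.ncard - {m | dep j m < D ∧ accB a arr dep u B' j m}.ncard := by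
        unfold preState
        rw [if_pos (by simpa using hj')]
      rw [hBD, hBD'] at hstrict
      -- split the counts at `D`
      have hfinC : ∀ (q : ℕ → Prop), {m' | dep j m' < s ∧ q m'}.Finite := fun q =>
        (h.finD j s).subset (fun m' hm' => hm'.1.le)
      have hsub1 : {m' | dep j m' < s ∧ accB a arr dep u B' j m'} ⊆
          insert m ({m' | dep j m' < D ∧ accB a arr dep u B' j m'} ∪
            {m' | D < dep j m' ∧ dep j m' < s ∧ accB a arr dep u B j m'}) := by
        rintro m' ⟨h1, h2⟩
        rcases lt_trichotomy m' m with h3 | h3 | h3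
        · exact Or.inr (Or.inl ⟨h.mono j h3, h2⟩)
        · exact Or.inl h3
        · refine Or.inr (Or.inr ⟨h.mono j h3, h1, ?_⟩)
          by_contra h4
          have := hmax m' ⟨h1, h2, h4⟩
          omega
      have hsub2 : {m' | dep j m' < D ∧ accB a arr dep u B j m'} ∪
            {m' | D < dep j m' ∧ dep j m' < s ∧ accB a arr dep u B j m'} ⊆
          {m' | dep j m' < s ∧ accB a arr dep u B j m'} := by
        rintro m' (⟨h1, h2⟩ | ⟨h1, h2, h3⟩)
        · exact ⟨lt_trans h1 hm1, h2⟩
        · exact ⟨h2, h3⟩
      have hf1 : {m' | dep j m' < D ∧ accB a arr dep u B j m'}.Finite :=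
        (hfinC _).subset (fun m' hm' => ⟨lt_trans hm'.1 hm1, hm'.2⟩)
      have hf1' : {m' | dep j m' < D ∧ accB a arr dep u B' j m'}.Finite :=
        (hfinC _).subset (fun m' hm' => ⟨lt_trans hm'.1 hm1, hm'.2⟩)
      have hf2 : {m' | D < dep j m' ∧ dep j m' < s ∧ accB a arr dep u B j m'}.Finite :=
        (hfinC _).subset (fun m' hm' => ⟨hm'.2.1, hm'.2.2⟩)
      have hdisj : Disjoint {m' | dep j m' < D ∧ accB a arr dep u B j m'}
          {m' | D < dep j m' ∧ dep j m' < s ∧ accB a arr dep u B j m'} := by
        rw [Set.disjoint_left]
        rintro m' ⟨h1, _⟩ ⟨h2, _⟩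
        exact lt_asymm h1 h2
      have e1 := Set.ncard_le_ncard hsub1 ((hf1'.union hf2).insert m)
      have e2 := Set.ncard_insert_le m ({m' | dep j m' < D ∧ accB a arr dep u B' j m'} ∪
            {m' | D < dep j m' ∧ dep j m' < s ∧ accB a arr dep u B j m'})
      have e3 := Set.ncard_union_le {m' | dep j m' < D ∧ accB a arr dep u B' j m'}
            {m' | D < dep j m' ∧ dep j m' < s ∧ accB a arr dep u B j m'}
      have e4 := Set.ncard_le_ncard hsub2 (hfinC _)
      rw [Set.ncard_union_eq hdisj hf1 hf2] at e4
      omega
    · apply Set.ncard_le_ncard _ ((h.finD j s).subset (fun m hm => hm.1.le))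
      rintro m ⟨h1, h2⟩
      refine ⟨h1, ?_⟩
      by_contra h3
      exact hne ⟨m, h1, h2, h3⟩
  exact main _ s rfl j

end Det

end Pool.Agent.Lib.MP_87e9f0_pr
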