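import Pool.Agent.Lib.MP_87e9f0_pr.Defs

set_option autoImplicit false

open MeasureTheory ProbabilityTheory Filter Topology

namespace Pool.Agent.Lib.MP_87e9f0_pr

/-- The box `[-L, L]^d`. -/
noncomputable def box (d L : ℕ) : Finset (Site d) := Fintype.piFinset (fun _ : Fin d => Finset.Icc (-(L : ℤ)) L)

lemma mem_box {d L : ℕ} {i : Site d} : i ∈ box d L ↔ ∀ k, -(L : ℤ) ≤ i k ∧ i k ≤ L := by
  simp [box]

lemma card_box (d L : ℕ) : (box d L).card = (2 * L + 1) ^ d := by
  have h : ((L : ℤ) + 1 - -(L : ℤ)).toNat = 2 * L + 1 := by omega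
  rw [box, Fintype.card_piFinset]
  simp only [Int.card_Icc, h, Finset.prod_const, Finset.card_univ, Fintype.card_fin]

lemma tendsto_box_ratio (d r : ℕ) :
    Tendsto (fun L : ℕ => (((2 * (L : ℝ) + 1) / (2 * ((L + r : ℕ) : ℝ) + 1)) ^ d)) atTop (𝓝 1) := by
  have h1 : Tendsto (fun L : ℕ => ((2 * (L : ℝ) + 1) / (2 * ((L + r : ℕ) : ℝ) + 1))) atTop (𝓝 1) := by
    have h2 : (fun L : ℕ => ((2 * (L : ℝ) + 1) / (2 * ((L + r : ℕ) : ℝ) + 1)))
        = fun L : ℕ => 1 - (2 * (r : ℝ)) / (2 * ((L + r : ℕ) : ℝ) + 1) := by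
      funext L
      have : (2 * ((L + r : ℕ) : ℝ) + 1) ≠ 0 := by positivity
      field_simp
      push_cast
      ring
    rw [h2]
    have h3 : Tendsto (fun L : ℕ => (2 * (r : ℝ)) / (2 * ((L + r : ℕ) : ℝ) + 1)) atTop (𝓝 0) := by
      apply Tendsto.div_atTop tendsto_const_nhds
      apply tendsto_atTop_add_const_right
      apply Tendsto.const_mul_atTop (by norm_num)
      exact tendsto_natCast_atTop_atTop.comp (tendsto_add_atTop_nat r)
    simpa using tendsto_const_nhds.sub h3
  simpa using h1.pow d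

lemma exists_perron {d : ℕ} {a : Site d → ℝ} (ha : IsInterference a) {c : ℝ} (hc0 : 0 < c)
    (hc : c < ∑ᶠ j, a j) :
    ∃ (B : Finset (Site d)) (φ : Site d → ℝ) (ρ : ℝ), B.Nonempty ∧ (∀ i ∈ B, 0 < φ i) ∧
      (∀ i, i ∉ B → φ i = 0) ∧ c < ρ ∧ ∀ i ∈ B, ρ * φ i ≤ ∑ᶠ j, a j * φ (i - j) := by
  classical
  set S := ha.finite_support.toFinset with hS
  have hsum : ∑ᶠ j, a j = ∑ j ∈ S, a j := by
    apply finsum_eq_sum_of_support_subset
    simp [hS]
  -- a radius bounding the support
  obtain ⟨r, hr⟩ : ∃ r : ℕ, ∀ j ∈ S, ∀ k, -(r : ℤ) ≤ j k ∧ j k ≤ r := by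
    refine ⟨∑ j ∈ S, ∑ k, (j k).natAbs, fun j hj k => ?_⟩
    have h1 : (j k).natAbs ≤ ∑ j ∈ S, ∑ k, (j k).natAbs := by
      calc (j k).natAbs ≤ ∑ k, (j k).natAbs :=
            Finset.single_le_sum (f := fun k => (j k).natAbs) (fun _ _ => Nat.zero_le _)
              (Finset.mem_univ k)
        _ ≤ _ := Finset.single_le_sum (f := fun j : Site d => ∑ k, (j k).natAbs)
              (fun _ _ => Nat.zero_le _) hj
    omega
  -- choose the box
  obtain ⟨L, hL⟩ : ∃ L : ℕ, c < (((2 * (L : ℝ) + 1) / (2 * ((L + r : ℕ) : ℝ) + 1)) ^ d) *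
      ∑ j ∈ S, a j := by
    have h := (tendsto_box_ratio d r).mul_const (∑ j ∈ S, a j)
    rw [one_mul] at h
    rw [hsum] at hc
    exact (h.eventually (lt_mem_nhds hc)).exists
  set V := box d (L + r) with hV
  have hVne : V.Nonempty := ⟨0, by
    rw [hV, mem_box]; intro k; constructor
    · simp only [Pi.zero_apply]; push_cast; omega
    · simp only [Pi.zero_apply]; push_cast; omega⟩
  have : Nonempty V := hVne.to_subtype
  let A : Matrix V V ℝ := fun i j => a (i.1 - j.1)
  have hA : A.IsHermitian := by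
    refine Matrix.IsHermitian.ext (fun i j => ?_)
    simp only [A, star_trivial]
    rw [ha.symm, neg_sub]
  let T : EuclideanSpace ℝ V →ₗ[ℝ] EuclideanSpace ℝ V := Matrix.toEuclideanLin A
  have hT : T.IsSymmetric := Matrix.isSymmetric_toEuclideanLin_iff.2 hA
  have hTapply : ∀ (v : EuclideanSpace ℝ V) (i : V), T v i = ∑ j : V, a (i.1 - j.1) * v j := by
    intro v i
    rfl
  have hinner : ∀ v w : EuclideanSpace ℝ V, inner ℝ v w = ∑ i : V, v i * w i := by
    intro v w
    rw [PiLp.inner_apply]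
    apply Finset.sum_congr rfl
    intro i _
    simp [mul_comm]
  have : Nontrivial (EuclideanSpace ℝ V) := inferInstance
  have hev := hT.hasEigenvalue_iSup_of_finiteDimensional
  set μ : ℝ := ⨆ x : { x : EuclideanSpace ℝ V // x ≠ 0 },
    RCLike.re (inner ℝ (T x) (x : EuclideanSpace ℝ V)) / ‖(x : EuclideanSpace ℝ V)‖ ^ 2 with hμ
  -- lower bound for the supremum
  have hcμ : c < μ := by
    let e : EuclideanSpace ℝ V := WithLp.toLp 2 (fun _ => (1 : ℝ))
    have he1 : ∀ i, e i = 1 := fun _ => rfl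
    have hne : e ≠ 0 := by
      intro h
      obtain ⟨i⟩ := (inferInstance : Nonempty V)
      have := he1 i
      rw [h] at this
      simp at this
    have hnorm : ‖e‖ ^ 2 = (V.card : ℝ) := by
      rw [← real_inner_self_eq_norm_sq, hinner]
      simp [he1]
    have hbdd : BddAbove (Set.range fun x : { x : EuclideanSpace ℝ V // x ≠ 0 } =>
        RCLike.re (inner ℝ (T x) (x : EuclideanSpace ℝ V)) /
          ‖(x : EuclideanSpace ℝ V)‖ ^ 2) := by
      refine ⟨‖(LinearMap.toContinuousLinearMap T)‖, ?_⟩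
      rintro _ ⟨x, rfl⟩
      have h2 := (LinearMap.toContinuousLinearMap T).rayleighQuotient_le_norm (x : EuclideanSpace ℝ V)
      have h3 := le_abs_self ((LinearMap.toContinuousLinearMap T).rayleighQuotient
        (x : EuclideanSpace ℝ V))
      exact h3.trans h2
    have h1 : RCLike.re (inner ℝ (T e) e) / ‖e‖ ^ 2 ≤ μ :=
      le_ciSup hbdd (⟨e, hne⟩ : { x : EuclideanSpace ℝ V // x ≠ 0 })
    refine lt_of_lt_of_le ?_ h1
    have hval : RCLike.re (inner ℝ (T e) e) = ∑ i : V, ∑ j : V, a (i.1 - j.1) := by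
      rw [hinner]
      simp only [hTapply, he1, mul_one]
      rfl
    have hinnerbox : ∀ i : V, i.1 ∈ box d L → ∑ j : V, a (i.1 - j.1) = ∑ j ∈ S, a j := by
      intro i hi
      rw [Finset.sum_coe_sort V (fun j => a (i.1 - j))]
      rw [mem_box] at hi
      symm
      apply Finset.sum_bij_ne_zero (fun j _ _ => i.1 - j)
      · intro j hj _
        show i.1 - j ∈ box d (L + r)
        rw [mem_box]
        intro k
        have h1 := hr j hj k
        have h2 := hi k
        simp only [Pi.sub_apply]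
        push_cast
        constructor <;> linarith
      · intro j1 _ _ j2 _ _ h
        exact sub_right_injective h
      · intro j _ hj0
        refine ⟨i.1 - j, ?_, hj0, by simp⟩
        rw [hS]
        simp only [Set.Finite.mem_toFinset, Function.mem_support]
        exact hj0
      · intro j _ _
        simp
    have hge : ((box d L).card : ℝ) * ∑ j ∈ S, a j ≤ ∑ i : V, ∑ j : V, a (i.1 - j.1) := by
      have hsub : box d L ⊆ V := by
        intro i hi
        rw [mem_box] at hi
        rw [hV, mem_box]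
        intro k
        have := hi k
        push_cast
        constructor <;> linarith
      have h2 : ∑ i : V, ∑ j : V, a (i.1 - j.1) = ∑ i ∈ V, ∑ j : V, a (i - j.1) :=
        Finset.sum_coe_sort V (fun i => ∑ j : V, a (i - j.1))
      rw [h2]
      calc ((box d L).card : ℝ) * ∑ j ∈ S, a j = ∑ i ∈ box d L, ∑ j ∈ S, a j := by
            rw [Finset.sum_const, nsmul_eq_mul]
        _ = ∑ i ∈ box d L, ∑ j : V, a (i - j.1) := by
            apply Finset.sum_congr rfl
            intro i hi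
            exact (hinnerbox ⟨i, hsub hi⟩ hi).symm
        _ ≤ _ := Finset.sum_le_sum_of_subset_of_nonneg hsub
            (fun i _ _ => Finset.sum_nonneg (fun j _ => ha.nonneg _))
    rw [hval, hnorm]
    have hVpos : (0 : ℝ) < (V.card : ℝ) := by
      exact_mod_cast Finset.card_pos.2 hVne
    rw [lt_div_iff₀ hVpos]
    refine lt_of_lt_of_le ?_ hge
    have hcard1 : ((box d L).card : ℝ) = (2 * (L : ℝ) + 1) ^ d := by
      rw [card_box]; push_cast; ring
    have hcard2 : (V.card : ℝ) = (2 * ((L + r : ℕ) : ℝ) + 1) ^ d := by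
      rw [hV, card_box]; push_cast; ring
    rw [hcard1, hcard2]
    have hpos2 : (0 : ℝ) < (2 * ((L + r : ℕ) : ℝ) + 1) ^ d := by positivity
    calc c * (2 * ((L + r : ℕ) : ℝ) + 1) ^ d
        < ((((2 * (L : ℝ) + 1) / (2 * ((L + r : ℕ) : ℝ) + 1)) ^ d) * ∑ j ∈ S, a j) *
            (2 * ((L + r : ℕ) : ℝ) + 1) ^ d := by
          exact mul_lt_mul_of_pos_right hL hpos2
      _ = (2 * (L : ℝ) + 1) ^ d * ∑ j ∈ S, a j := by
          rw [div_pow]; field_simp
  obtain ⟨v, hv⟩ := hev.exists_hasEigenvector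
  have hTv : T v = (μ : ℝ) • v := by
    have := hv.apply_eq_smul
    simpa using this
  have hv0 : v ≠ 0 := hv.2
  let φ : Site d → ℝ := fun i => if h : i ∈ V then |v ⟨i, h⟩| else 0
  have hφV : ∀ i : V, φ i.1 = |v i| := by
    intro i
    simp [φ]
  have hφ0 : ∀ i, 0 ≤ φ i := by
    intro i
    by_cases h : i ∈ V
    · simp only [φ, h, dif_pos]; exact abs_nonneg _
    · simp [φ, h]
  refine ⟨V.filter (fun i => φ i ≠ 0), φ, μ, ?_, ?_, ?_, hcμ, ?_⟩
  · obtain ⟨i, hi⟩ : ∃ i, v i ≠ 0 := by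
      by_contra hcon
      push Not at hcon
      exact hv0 (by ext i; simpa using hcon i)
    refine ⟨i.1, ?_⟩
    rw [Finset.mem_filter]
    refine ⟨i.2, ?_⟩
    rw [hφV]
    exact abs_ne_zero.2 hi
  · intro i hi
    rw [Finset.mem_filter] at hi
    exact lt_of_le_of_ne (hφ0 i) (Ne.symm hi.2)
  · intro i hi
    rw [Finset.mem_filter] at hi
    by_cases h : i ∈ V
    · by_contra hne
      exact hi ⟨h, hne⟩
    · simp [φ, h]
  · intro i hi
    rw [Finset.mem_filter] at hi
    have hiV := hi.1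
    have h1 : ∑ᶠ j, a j * φ (i - j) = ∑ k : V, a (i - k.1) * |v k| := by
      have h2 : ∑ᶠ j, a j * φ (i - j) = ∑ᶠ k, a (i - k) * φ k := by
        rw [← finsum_comp_equiv (Equiv.subLeft i)]
        apply finsum_congr
        intro j
        simp
      rw [h2, finsum_eq_sum_of_support_subset (s := V)]
      · rw [← Finset.sum_coe_sort V (fun k => a (i - k) * φ k)]
        apply Finset.sum_congr rfl
        intro k _
        rw [hφV]
      · intro k hk
        rw [Function.mem_support] at hk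
        by_contra hkV
        apply hk
        have : φ k = 0 := by
          have hkV' : k ∉ V := hkV
          simp [φ, hkV']
        rw [this, mul_zero]
    rw [h1]
    have h3 : φ i = |v ⟨i, hiV⟩| := hφV ⟨i, hiV⟩
    rw [h3]
    have h4 : μ * v ⟨i, hiV⟩ = ∑ k : V, a (i - k.1) * v k := by
      rw [← hTapply v ⟨i, hiV⟩, hTv]
      simp
    have hμ0 : 0 < μ := hc0.trans hcμ
    calc μ * |v ⟨i, hiV⟩| = |μ * v ⟨i, hiV⟩| := by
          rw [abs_mul, abs_of_pos hμ0]
      _ = |∑ k : V, a (i - k.1) * v k| := by rw [h4]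
      _ ≤ ∑ k : V, |a (i - k.1) * v k| := Finset.abs_sum_le_sum_abs _ _
      _ = ∑ k : V, a (i - k.1) * |v k| := by
          apply Finset.sum_congr rfl
          intro k _
          rw [abs_mul, abs_of_nonneg (ha.nonneg _)]

end Pool.Agent.Lib.MP_87e9f0_pr
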