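import Pool.Agent.Lib.MP_87e9f0_pr.Exists
import Pool.Agent.Lib.MP_87e9f0_pr.Perron

set_option autoImplicit false

open MeasureTheory ProbabilityTheory Filter Topology

namespace Pool.Agent.Lib.MP_87e9f0_pr

section Det

variable {d : ℕ}

lemma eventually_const_of_bdd {f : ℕ → ℕ} (hf : Monotone f) {C : ℕ} (hC : ∀ n, f n ≤ C) :
    ∃ c, ∀ᶠ n in atTop, f n = c := by
  have hbdd : BddAbove (Set.range f) := ⟨C, by rintro _ ⟨n, rfl⟩; exact hC n⟩
  obtain ⟨K, hK⟩ := Nat.sSup_mem (Set.range_nonempty f) hbdd
  refine ⟨f K, ?_⟩
  filter_upwards [eventually_ge_atTop K] with n hn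
  apply le_antisymm _ (hf hn)
  rw [hK]
  exact le_csSup hbdd ⟨n, rfl⟩

lemma box_mono (d : ℕ) {L L' : ℕ} (h : L ≤ L') : box d L ⊆ box d L' := by
  intro i hi
  rw [mem_box] at hi ⊢
  intro k
  have := hi k
  constructor <;> omega

lemma eventually_mem_box (i : Site d) : ∀ᶠ L in atTop, i ∈ box d L := by
  filter_upwards [eventually_ge_atTop (∑ k, (i k).natAbs)] with L hL
  rw [mem_box]
  intro k
  have h1 : (i k).natAbs ≤ ∑ k, (i k).natAbs :=
    Finset.single_le_sum (f := fun k => (i k).natAbs) (fun _ _ => Nat.zero_le _)
      (Finset.mem_univ k)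
  constructor <;> omega

/-- Accepted potential departures for the whole lattice: limit of the boxes. -/
def accLim (a : Site d → ℝ) (arr dep u : Site d → ℕ → ℝ) (i : Site d) (n : ℕ) : Prop :=
  ∃ K : ℕ, ∀ L, K ≤ L → accB a arr dep u (box d L) i n

lemma preState_box_mono {a : Site d → ℝ} (ha : IsInterference a) {arr dep u : Site d → ℕ → ℝ}
    (h : NiceData arr dep u) (s : ℝ) (j : Site d) :
    Monotone (fun L : ℕ => preState arr dep (box d L) (accB a arr dep u (box d L)) s j) := by
  intro L L' hL
  exact preState_mono ha h (box_mono d hL) s j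

lemma preState_le {arr dep : Site d → ℕ → ℝ} {B : Set (Site d)} {acc : Site d → ℕ → Prop}
    (s : ℝ) (j : Site d) : preState arr dep B acc s j ≤ {n | arr j n < s}.ncard := by
  unfold preState
  split_ifs
  · exact Nat.sub_le _ _
  · exact Nat.zero_le _

lemma preState_box_eventually {a : Site d → ℝ} (ha : IsInterference a)
    {arr dep u : Site d → ℕ → ℝ} (h : NiceData arr dep u) (s : ℝ) (j : Site d) :
    ∃ c, ∀ᶠ L in atTop, preState arr dep (box d L) (accB a arr dep u (box d L)) s j = c :=
  eventually_const_of_bdd (preState_box_mono ha h s j) (fun _ => preState_le s j)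

lemma departureRate_congr {a : Site d → ℝ} {y y' : Site d → ℕ} {i : Site d} (hi : y i = y' i)
    (h : ∀ k, a k ≠ 0 → y (i - k) = y' (i - k)) : departureRate a y i = departureRate a y' i := by
  unfold departureRate
  rw [hi]
  congr 1
  apply finsum_congr
  intro k
  by_cases hk : a k = 0
  · simp [hk]
  · rw [h k hk]

lemma accB_box_eventually {a : Site d → ℝ} (ha : IsInterference a)
    {arr dep u : Site d → ℕ → ℝ} (h : NiceData arr dep u) (i : Site d) (n : ℕ) :
    ∀ᶠ L in atTop, (accB a arr dep u (box d L) i n ↔ accLim a arr dep u i n) := by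
  classical
  -- the rates are eventually constant
  choose c hc using fun j => preState_box_eventually ha h (dep i n) j
  have h1 : ∀ᶠ L in atTop, ∀ k ∈ insert 0 (ha.finite_support.toFinset),
      preState arr dep (box d L) (accB a arr dep u (box d L)) (dep i n) (i - k) = c (i - k) :=
    (Filter.eventually_all_finset _).2 (fun k _ => hc (i - k))
  have h2 : ∀ᶠ L : ℕ in atTop, (accB a arr dep u (box d L) i n ↔ u i n < departureRate a c i) := by
    filter_upwards [h1, eventually_mem_box i] with L hL1 hL2
    rw [accB_fix h.finD]
    have h3 : departureRate a (preState arr dep (box d L) (accB a arr dep u (box d L)) (dep i n)) i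
        = departureRate a c i := by
      apply departureRate_congr
      · have := hL1 0 (by simp)
        simpa using this
      · intro k hk
        exact hL1 k (by simp [hk])
    rw [h3]
    simp [hL2]
  by_cases h4 : u i n < departureRate a c i
  · have h5 : accLim a arr dep u i n := by
      obtain ⟨K, hK⟩ := eventually_atTop.1 h2
      exact ⟨K, fun L hL => (hK L hL).2 h4⟩
    filter_upwards [h2] with L hL
    exact ⟨fun _ => h5, fun _ => hL.2 h4⟩
  · have h5 : ¬ accLim a arr dep u i n := by
      rintro ⟨K, hK⟩
      obtain ⟨K', hK'⟩ := eventually_atTop.1 h2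
      exact h4 ((hK' (max K K') (le_max_right _ _)).1 (hK _ (le_max_left _ _)))
    filter_upwards [h2] with L hL
    exact ⟨fun h6 => absurd (hL.1 h6) h4, fun h6 => absurd h6 h5⟩

lemma preState_lim {a : Site d → ℝ} (ha : IsInterference a)
    {arr dep u : Site d → ℕ → ℝ} (h : NiceData arr dep u) (s : ℝ) (j : Site d) :
    ∀ᶠ L in atTop, preState arr dep (box d L) (accB a arr dep u (box d L)) s j
      = preState arr dep Set.univ (accLim a arr dep u) s j := by
  have hfin : {m | dep j m < s}.Finite :=
    (h.finD j s).subset (fun m hm => (show dep j m ≤ s from le_of_lt hm))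
  have h1 : ∀ᶠ L in atTop, ∀ m ∈ {m | dep j m < s},
      (accB a arr dep u (box d L) j m ↔ accLim a arr dep u j m) :=
    (Filter.eventually_all_finite hfin).2 (fun m _ => accB_box_eventually ha h j m)
  filter_upwards [h1, eventually_mem_box j] with L hL1 hL2
  unfold preState
  rw [if_pos (by simpa using hL2), if_pos (Set.mem_univ j)]
  congr 2
  ext m
  simp only [Set.mem_ofPred_eq]
  constructor
  · rintro ⟨h2, h3⟩; exact ⟨h2, (hL1 m h2).1 h3⟩
  · rintro ⟨h2, h3⟩; exact ⟨h2, (hL1 m h2).2 h3⟩

lemma accLim_fix {a : Site d → ℝ} (ha : IsInterference a)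
    {arr dep u : Site d → ℕ → ℝ} (h : NiceData arr dep u) (i : Site d) (n : ℕ) :
    accLim a arr dep u i n ↔
      u i n < departureRate a (preState arr dep Set.univ (accLim a arr dep u) (dep i n)) i := by
  classical
  have h1 : ∀ᶠ L in atTop, ∀ k ∈ insert 0 (ha.finite_support.toFinset),
      preState arr dep (box d L) (accB a arr dep u (box d L)) (dep i n) (i - k)
        = preState arr dep Set.univ (accLim a arr dep u) (dep i n) (i - k) :=
    (Filter.eventually_all_finset _).2 (fun k _ => preState_lim ha h (dep i n) (i - k))
  obtain ⟨L, hL1, hL2, hL3⟩ :=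
    (h1.and ((eventually_mem_box i).and (accB_box_eventually ha h i n))).exists
  rw [← hL3, accB_fix h.finD]
  have h3 : departureRate a (preState arr dep (box d L) (accB a arr dep u (box d L)) (dep i n)) i
      = departureRate a (preState arr dep Set.univ (accLim a arr dep u) (dep i n)) i := by
    apply departureRate_congr
    · have := hL1 0 (by simp)
      simpa using this
    · intro k hk
      exact hL1 k (by simp [hk])
  rw [h3]
  simp [hL2]

/-- The network path on the whole lattice. -/
noncomputable def limPath (a : Site d → ℝ) (arr dep u : Site d → ℕ → ℝ) (t : ℝ) (i : Site d) : ℕ :=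
  {n | arr i n ≤ t}.ncard - {m | dep i m ≤ t ∧ accLim a arr dep u i m}.ncard

lemma accLim_imp_pos {a : Site d → ℝ} (ha : IsInterference a)
    {arr dep u : Site d → ℕ → ℝ} (h : NiceData arr dep u) (i : Site d) (n : ℕ)
    (hn : accLim a arr dep u i n) :
    1 ≤ preState arr dep Set.univ (accLim a arr dep u) (dep i n) i := by
  rw [accLim_fix ha h] at hn
  exact departureRate_pos_imp (lt_of_le_of_lt (h.mark i n) hn)

lemma limPath_eq {a : Site d → ℝ} (ha : IsInterference a)
    {arr dep u : Site d → ℕ → ℝ} (h : NiceData arr dep u) (t : ℝ) (i : Site d) :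
    (limPath a arr dep u t i : ℕ∞) + {n | dep i n ≤ t ∧ accLim a arr dep u i n}.encard
      = {n | arr i n ≤ t}.encard := by
  classical
  have hf1 : {n | dep i n ≤ t ∧ accLim a arr dep u i n}.Finite :=
    (h.finD i t).subset (fun m hm => hm.1)
  have hf2 := h.finA i t
  rw [← hf1.cast_ncard_eq, ← hf2.cast_ncard_eq]
  have hle : {n | dep i n ≤ t ∧ accLim a arr dep u i n}.ncard ≤ {n | arr i n ≤ t}.ncard := by
    by_cases hne : {n | dep i n ≤ t ∧ accLim a arr dep u i n}.Nonempty
    · obtain ⟨m, hm, hmax⟩ := hf1.toFinset.exists_max_image id (by simpa using hne)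
      simp only [Set.Finite.mem_toFinset, id] at hm hmax
      obtain ⟨hm1, hm2⟩ := hm
      have h1 := acc_count_le h (accLim_imp_pos ha h) i (dep i m)
      have h2 := accLim_imp_pos ha h i m hm2
      unfold preState at h2
      rw [if_pos (Set.mem_univ i)] at h2
      have hsub : {n | dep i n ≤ t ∧ accLim a arr dep u i n} ⊆
          insert m {m' | dep i m' < dep i m ∧ accLim a arr dep u i m'} := by
        intro m' hm'
        rcases (hmax m' hm').lt_or_eq with h3 | h3
        · exact Or.inr ⟨h.mono i h3, hm'.2⟩
        · exact Or.inl h3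
      have hfin2 : {m' | dep i m' < dep i m ∧ accLim a arr dep u i m'}.Finite :=
        (h.finD i (dep i m)).subset (fun m' hm' => hm'.1.le)
      have h3 := (Set.ncard_le_ncard hsub (hfin2.insert m)).trans (Set.ncard_insert_le _ _)
      have h4 : {n | arr i n < dep i m}.ncard ≤ {n | arr i n ≤ t}.ncard :=
        Set.ncard_le_ncard (fun n hn => (show arr i n ≤ t from (le_of_lt hn).trans hm1)) hf2
      omega
    · rw [Set.not_nonempty_iff_eq_empty.1 hne]
      simp
  unfold limPath
  norm_cast
  omega

lemma leftLim_limPath {a : Site d → ℝ} {arr dep u : Site d → ℕ → ℝ} (h : NiceData arr dep u)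
    (D : ℝ) (j : Site d) :
    Function.leftLim (fun s => limPath a arr dep u s j) D
      = preState arr dep Set.univ (accLim a arr dep u) D j := by
  apply leftLim_eq_of_tendsto
  have h1 := eventually_setOf_le_eq (arr j) (h.finA j D)
  have h2 := eventually_setOf_le_eq (dep j) (h.finD j D)
  apply (tendsto_const_nhds).congr'
  filter_upwards [h1, h2] with s hs1 hs2
  unfold limPath preState
  rw [if_pos (Set.mem_univ j)]
  simp only [hs1, hs2]

end Det

section Meas

variable {d : ℕ} {Ω : Type*} [MeasurableSpace Ω]

lemma measurable_ncard {A : ℕ → Set Ω} (hA : ∀ n, MeasurableSet (A n))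
    (hfin : ∀ ω, {n | ω ∈ A n}.Finite) : Measurable (fun ω => {n | ω ∈ A n}.ncard) := by
  classical
  refine measurable_of_tendsto_metrizable
    (f := fun (N : ℕ) ω => ∑ n ∈ Finset.range N, (A n).indicator (fun _ => (1 : ℕ)) ω) ?_ ?_
  · intro N
    exact Finset.measurable_sum _ (fun n _ => measurable_const.indicator (hA n))
  · rw [tendsto_pi_nhds]
    intro ω
    obtain ⟨N0, hN0⟩ := (hfin ω).bddAbove
    apply tendsto_const_nhds.congr'
    filter_upwards [eventually_gt_atTop N0] with N hN
    have h1 : ∑ n ∈ Finset.range N, (A n).indicator (fun _ => (1 : ℕ)) ω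
        = ((Finset.range N).filter (fun n => ω ∈ A n)).card := by
      rw [Finset.card_filter]
      apply Finset.sum_congr rfl
      intro n _
      simp [Set.indicator_apply]
    rw [h1, ← Set.ncard_coe_finset]
    congr 1
    ext n
    simp only [Set.mem_ofPred_eq, Finset.coe_filter, Finset.mem_range]
    constructor
    · intro hn
      exact ⟨lt_of_le_of_lt (hN0 hn) hN, hn⟩
    · exact fun hn => hn.2

variable {a : Site d → ℝ} {arr dep u : Site d → ℕ → Ω → ℝ}

lemma measurableSet_accIter (ha : IsInterference a)
    (harr : ∀ i n, Measurable (arr i n)) (hdep : ∀ i n, Measurable (dep i n))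
    (hu : ∀ i n, Measurable (u i n))
    (h : ∀ ω, NiceData (fun i n => arr i n ω) (fun i n => dep i n ω) (fun i n => u i n ω))
    (B : Set (Site d)) : ∀ k i n, MeasurableSet {ω | accIter a (fun i n => arr i n ω)
      (fun i n => dep i n ω) (fun i n => u i n ω) B k i n} := by
  classical
  intro k
  induction k with
  | zero => intro i n; simp [accIter]
  | succ k ih =>
    intro i n
    by_cases hi : i ∈ B
    swap
    · have : {ω | accIter a (fun i n => arr i n ω) (fun i n => dep i n ω) (fun i n => u i n ω) B
          (k + 1) i n} = ∅ := by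
        ext ω
        simp [accIter, hi]
      rw [this]
      exact MeasurableSet.empty
    have hstate : ∀ j, Measurable (fun ω => preState (fun i n => arr i n ω) (fun i n => dep i n ω) B
        (accIter a (fun i n => arr i n ω) (fun i n => dep i n ω) (fun i n => u i n ω) B k)
        (dep i n ω) j) := by
      intro j
      unfold preState
      by_cases hj : j ∈ B
      · simp only [hj, if_true]
        apply Measurable.sub
        · exact measurable_ncard (A := fun m => {ω | arr j m ω < dep i n ω})
            (fun m => measurableSet_lt (harr j m) (hdep i n))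
            (fun ω => ((h ω).finA j (dep i n ω)).subset
              (fun m hm => (show arr j m ω ≤ dep i n ω from le_of_lt hm)))
        · exact measurable_ncard (A := fun m => {ω | dep j m ω < dep i n ω ∧
              accIter a (fun i n => arr i n ω) (fun i n => dep i n ω) (fun i n => u i n ω) B k j m})
            (fun m => (measurableSet_lt (hdep j m) (hdep i n)).inter (ih j m))
            (fun ω => ((h ω).finD j (dep i n ω)).subset
              (fun m hm => (show dep j m ω ≤ dep i n ω from le_of_lt hm.1)))
      · simp only [hj, if_false]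
        exact measurable_const
    have hrate : Measurable (fun ω => departureRate a
        (preState (fun i n => arr i n ω) (fun i n => dep i n ω) B
        (accIter a (fun i n => arr i n ω) (fun i n => dep i n ω) (fun i n => u i n ω) B k)
        (dep i n ω)) i) := by
      unfold departureRate
      apply Measurable.div
      · exact (measurable_from_top (f := fun m : ℕ => (m : ℝ))).comp (hstate i)
      · have hfs : ∀ ω, ∑ᶠ j, a j * (preState (fun i n => arr i n ω) (fun i n => dep i n ω) B
            (accIter a (fun i n => arr i n ω) (fun i n => dep i n ω) (fun i n => u i n ω) B k)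
            (dep i n ω) (i - j) : ℝ)
            = ∑ j ∈ ha.finite_support.toFinset, a j *
            (preState (fun i n => arr i n ω) (fun i n => dep i n ω) B
            (accIter a (fun i n => arr i n ω) (fun i n => dep i n ω) (fun i n => u i n ω) B k)
            (dep i n ω) (i - j) : ℝ) := by
          intro ω
          apply finsum_eq_sum_of_support_subset
          intro j hj
          rw [Function.mem_support] at hj
          have : a j ≠ 0 := left_ne_zero_of_mul hj
          simp [this]
        simp only [hfs]
        apply Finset.measurable_sum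
        intro j _
        exact ((measurable_from_top (f := fun m : ℕ => (m : ℝ))).comp (hstate (i - j))).const_mul _
    have hset : {ω | accIter a (fun i n => arr i n ω) (fun i n => dep i n ω) (fun i n => u i n ω) B
          (k + 1) i n} = {ω | u i n ω < departureRate a
        (preState (fun i n => arr i n ω) (fun i n => dep i n ω) B
        (accIter a (fun i n => arr i n ω) (fun i n => dep i n ω) (fun i n => u i n ω) B k)
        (dep i n ω)) i} := by
      ext ω
      simp [accIter, hi]
    rw [hset]
    exact measurableSet_lt (hu i n) hrate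

lemma measurableSet_eventually_ge {A : ℕ → Set Ω} (hA : ∀ n, MeasurableSet (A n)) :
    MeasurableSet {ω | ∃ K : ℕ, ∀ k, K ≤ k → ω ∈ A k} := by
  have : {ω | ∃ K : ℕ, ∀ k, K ≤ k → ω ∈ A k} = ⋃ K : ℕ, ⋂ k, ⋂ (_ : K ≤ k), A k := by
    ext ω
    simp
  rw [this]
  exact MeasurableSet.iUnion (fun K => MeasurableSet.iInter (fun k => MeasurableSet.iInter
    (fun _ => hA k)))

lemma measurable_limPath (ha : IsInterference a)
    (harr : ∀ i n, Measurable (arr i n)) (hdep : ∀ i n, Measurable (dep i n))
    (hu : ∀ i n, Measurable (u i n))
    (h : ∀ ω, NiceData (fun i n => arr i n ω) (fun i n => dep i n ω) (fun i n => u i n ω))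
    (t : ℝ) : Measurable (fun ω => limPath a (fun i n => arr i n ω) (fun i n => dep i n ω)
      (fun i n => u i n ω) t) := by
  apply measurable_pi_lambda
  intro i
  have hB : ∀ (B : Set (Site d)) i n, MeasurableSet {ω | accB a (fun i n => arr i n ω)
      (fun i n => dep i n ω) (fun i n => u i n ω) B i n} := by
    intro B i n
    exact measurableSet_eventually_ge (fun k => measurableSet_accIter ha harr hdep hu h B k i n)
  have hL : ∀ i n, MeasurableSet {ω | accLim a (fun i n => arr i n ω)
      (fun i n => dep i n ω) (fun i n => u i n ω) i n} := by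
    intro i n
    exact measurableSet_eventually_ge (fun L => hB (box d L) i n)
  unfold limPath
  apply Measurable.sub
  · exact measurable_ncard (A := fun m => {ω | arr i m ω ≤ t})
      (fun m => measurableSet_le (harr i m) measurable_const) (fun ω => (h ω).finA i t)
  · exact measurable_ncard (A := fun m => {ω | dep i m ω ≤ t ∧
        accLim a (fun i n => arr i n ω) (fun i n => dep i n ω) (fun i n => u i n ω) i m})
      (fun m => (measurableSet_le (hdep i m) measurable_const).inter (hL i m))
      (fun ω => ((h ω).finD i t).subset (fun m hm => hm.1))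

end Meas

end Pool.Agent.Lib.MP_87e9f0_pr
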