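import Pool.Agent.Lib.MP_87e9f0_pr.Exists2

set_option autoImplicit false

open MeasureTheory ProbabilityTheory Filter Topology

namespace Pool.Agent.Lib.MP_87e9f0_pr

variable {d : ℕ} {Ω : Type*} [MeasurableSpace Ω] {P : Measure Ω} [IsProbabilityMeasure P]
  {lam : ℝ} {ξ : Kind × Site d × ℕ → Ω → ℝ}

omit [IsProbabilityMeasure P] in
lemma measurable_eventTime (hξ : IsGraphicalData P lam ξ) (k : Kind) (i : Site d) (n : ℕ) :
    Measurable (eventTime ξ k i n) :=
  Finset.measurable_sum _ (fun _ _ => hξ.measurable _)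

omit [IsProbabilityMeasure P] in
lemma ae_mark_nonneg (hξ : IsGraphicalData P lam ξ) :
    ∀ᵐ ω ∂P, ∀ (i : Site d) (n : ℕ), 0 ≤ ξ (Kind.mark, i, n) ω := by
  rw [ae_all_iff]
  intro i
  rw [ae_all_iff]
  intro n
  have h1 : ∀ᵐ x ∂(P.map (ξ (Kind.mark, i, n))), 0 ≤ x := by
    rw [hξ.law]
    show ∀ᵐ x ∂(volume.restrict (Set.Icc (0 : ℝ) 1)), 0 ≤ x
    filter_upwards [ae_restrict_mem measurableSet_Icc] with x hx using hx.1
  exact ae_of_ae_map (hξ.measurable _).aemeasurable h1

/-- Existence of the network process. -/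
theorem exists_networkProcess {a : Site d → ℝ} (ha : IsInterference a) (hlam : 0 < lam)
    (hξ : IsGraphicalData P lam ξ) : ∃ x : ℝ → Ω → Site d → ℕ, IsNetworkProcess P a ξ x := by
  classical
  -- the good set
  set G : Set Ω := {ω | (∀ (i : Site d) (n : ℕ), 0 < ξ (Kind.arrival, i, n) ω ∧
      0 < ξ (Kind.departure, i, n) ω) ∧ (∀ (i : Site d) (n : ℕ), 0 ≤ ξ (Kind.mark, i, n) ω) ∧
      ∀ (i : Site d) (K : ℕ), (∃ n, (K : ℝ) ≤ eventTime ξ Kind.arrival i n ω) ∧
        ∃ n, (K : ℝ) ≤ eventTime ξ Kind.departure i n ω} with hG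
  have hGm : MeasurableSet G := by
    have e1 : MeasurableSet {ω | ∀ (i : Site d) (n : ℕ), 0 < ξ (Kind.arrival, i, n) ω ∧
        0 < ξ (Kind.departure, i, n) ω} := by
      have : {ω | ∀ (i : Site d) (n : ℕ), 0 < ξ (Kind.arrival, i, n) ω ∧
        0 < ξ (Kind.departure, i, n) ω} = ⋂ i : Site d, ⋂ n : ℕ,
          ({ω | 0 < ξ (Kind.arrival, i, n) ω} ∩ {ω | 0 < ξ (Kind.departure, i, n) ω}) := by
        ext ω
        simp
      rw [this]
      exact MeasurableSet.iInter (fun i => MeasurableSet.iInter (fun n =>
        (measurableSet_lt measurable_const (hξ.measurable _)).inter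
          (measurableSet_lt measurable_const (hξ.measurable _))))
    have e2 : MeasurableSet {ω | ∀ (i : Site d) (n : ℕ), 0 ≤ ξ (Kind.mark, i, n) ω} := by
      have : {ω | ∀ (i : Site d) (n : ℕ), 0 ≤ ξ (Kind.mark, i, n) ω} = ⋂ i : Site d, ⋂ n : ℕ,
          {ω | 0 ≤ ξ (Kind.mark, i, n) ω} := by
        ext ω
        simp
      rw [this]
      exact MeasurableSet.iInter (fun i => MeasurableSet.iInter (fun n =>
        measurableSet_le measurable_const (hξ.measurable _)))
    have e3 : MeasurableSet {ω | ∀ (i : Site d) (K : ℕ),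
        (∃ n, (K : ℝ) ≤ eventTime ξ Kind.arrival i n ω) ∧
        ∃ n, (K : ℝ) ≤ eventTime ξ Kind.departure i n ω} := by
      have : {ω | ∀ (i : Site d) (K : ℕ),
        (∃ n, (K : ℝ) ≤ eventTime ξ Kind.arrival i n ω) ∧
        ∃ n, (K : ℝ) ≤ eventTime ξ Kind.departure i n ω} = ⋂ i : Site d, ⋂ K : ℕ,
          ((⋃ n, {ω | (K : ℝ) ≤ eventTime ξ Kind.arrival i n ω}) ∩
            (⋃ n, {ω | (K : ℝ) ≤ eventTime ξ Kind.departure i n ω})) := by
        ext ω
        simp
      rw [this]
      exact MeasurableSet.iInter (fun i => MeasurableSet.iInter (fun K =>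
        (MeasurableSet.iUnion (fun n => measurableSet_le measurable_const
          (measurable_eventTime hξ _ i n))).inter
        (MeasurableSet.iUnion (fun n => measurableSet_le measurable_const
          (measurable_eventTime hξ _ i n)))))
    exact e1.inter (e2.inter e3)
  have hGae : ∀ᵐ ω ∂P, ω ∈ G := by
    have hl : 0 < 1 / lam := by positivity
    set e : ℝ := min (1 / lam) 1 / 2 with he
    have he0 : 0 < e := by positivity
    have he1 : e < 1 / lam := by
      have : min (1 / lam) 1 ≤ 1 / lam := min_le_left _ _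
      linarith
    have he2 : e < 1 := by
      have : min (1 / lam) 1 ≤ 1 := min_le_right _ _
      linarith
    filter_upwards [ae_gaps_pos hξ hlam, ae_mark_nonneg hξ,
      ae_linBound hξ hlam zero_le_one le_rfl] with ω h1 h2 h3
    refine ⟨h1, h2, fun i K => ?_⟩
    obtain ⟨C, _, hC⟩ := h3 i e he0
    have ht := fun n => hC.times he0.le hlam he1 he2 n
    constructor
    · obtain ⟨n, hn⟩ := exists_nat_ge (((K : ℝ) + (1 / lam + 1 + 1 + e + C)) / (1 / lam - e))
      refine ⟨n, ?_⟩
      rw [div_le_iff₀ (by linarith)] at hn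
      have := (ht n).2.1
      linarith
    · obtain ⟨n, hn⟩ := exists_nat_ge (((K : ℝ) + (1 / lam + 1 + 1 + e + C)) / (1 - e))
      refine ⟨n, ?_⟩
      rw [div_le_iff₀ (by linarith)] at hn
      have := (ht n).2.2.2
      linarith
  -- modified data
  set arr' : Site d → ℕ → Ω → ℝ := fun i n ω =>
    if ω ∈ G then eventTime ξ Kind.arrival i n ω else (n : ℝ) + 1 with harr'
  set dep' : Site d → ℕ → Ω → ℝ := fun i n ω =>
    if ω ∈ G then eventTime ξ Kind.departure i n ω else (n : ℝ) + 1 with hdep'
  set u' : Site d → ℕ → Ω → ℝ := fun i n ω =>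
    if ω ∈ G then ξ (Kind.mark, i, n) ω else 0 with hu'
  have hfin : ∀ (T : ℕ → ℝ), Monotone T → (∀ K : ℕ, ∃ n, (K : ℝ) ≤ T n) → ∀ t,
      {m | T m ≤ t}.Finite := by
    intro T hT hunb t
    obtain ⟨K, hK⟩ := exists_nat_gt t
    obtain ⟨n, hn⟩ := hunb K
    apply (Set.finite_Iio n).subset
    intro m hm
    simp only [Set.mem_Iio]
    by_contra hcon
    push Not at hcon
    have h1 := hT hcon
    have h2 : T m ≤ t := hm
    linarith
  have hsm : StrictMono (fun n : ℕ => (n : ℝ) + 1) := by
    intro m n hmn
    have : (m : ℝ) < n := by exact_mod_cast hmn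
    simpa using this
  have hunb0 : ∀ K : ℕ, ∃ n : ℕ, (K : ℝ) ≤ (n : ℝ) + 1 := fun K => ⟨K, by linarith⟩
  have hnice : ∀ ω, NiceData (fun i n => arr' i n ω) (fun i n => dep' i n ω)
      (fun i n => u' i n ω) := by
    intro ω
    by_cases hω : ω ∈ G
    · simp only [harr', hdep', hu', hω, if_true]
      obtain ⟨h1, h2, h3⟩ := hω
      exact
        { finA := fun j => hfin _ (strictMono_eventTime (fun n => (h1 j n).1)).monotone
            (fun K => (h3 j K).1)
          finD := fun j => hfin _ (strictMono_eventTime (fun n => (h1 j n).2)).monotone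
            (fun K => (h3 j K).2)
          mono := fun j => strictMono_eventTime (fun n => (h1 j n).2)
          pos := fun j m => Finset.sum_pos (fun k _ => (h1 j k).2) ⟨0, by simp⟩
          mark := fun j m => h2 j m }
    · simp only [harr', hdep', hu', hω, if_false]
      exact
        { finA := fun j => hfin _ hsm.monotone hunb0
          finD := fun j => hfin _ hsm.monotone hunb0
          mono := fun j => hsm
          pos := fun j m => by positivity
          mark := fun j m => le_rfl }
  refine ⟨fun t ω => limPath a (fun i n => arr' i n ω) (fun i n => dep' i n ω)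
    (fun i n => u' i n ω) t, ?_, ?_⟩
  · intro t
    apply measurable_limPath ha _ _ _ hnice t
    · intro i n
      exact Measurable.ite hGm (measurable_eventTime hξ _ i n) measurable_const
    · intro i n
      exact Measurable.ite hGm (measurable_eventTime hξ _ i n) measurable_const
    · intro i n
      exact Measurable.ite hGm (hξ.measurable _) measurable_const
  · filter_upwards [hGae] with ω hω t ht i
    have h := hnice ω
    have heq := limPath_eq ha h t i
    have hA : ∀ j n, arr' j n ω = eventTime ξ Kind.arrival j n ω := by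
      intro j n; simp only [harr', hω, if_true]
    have hD : ∀ j n, dep' j n ω = eventTime ξ Kind.departure j n ω := by
      intro j n; simp only [hdep', hω, if_true]
    have hU : ∀ j n, u' j n ω = ξ (Kind.mark, j, n) ω := by
      intro j n; simp only [hu', hω, if_true]
    have hacc : ∀ n, accLim a (fun i n => arr' i n ω) (fun i n => dep' i n ω)
        (fun i n => u' i n ω) i n ↔ Accepted a ξ ω (fun s => limPath a (fun i n => arr' i n ω)
          (fun i n => dep' i n ω) (fun i n => u' i n ω) s) i n := by
      intro n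
      rw [accLim_fix ha h]
      unfold Accepted
      rw [← hU i n, ← hD i n]
      have : (fun j => Function.leftLim (fun s => limPath a (fun i n => arr' i n ω)
          (fun i n => dep' i n ω) (fun i n => u' i n ω) s j) (dep' i n ω))
          = preState (fun i n => arr' i n ω) (fun i n => dep' i n ω) Set.univ
            (accLim a (fun i n => arr' i n ω) (fun i n => dep' i n ω) (fun i n => u' i n ω))
            (dep' i n ω) := by
        funext j
        exact leftLim_limPath h (dep' i n ω) j
      rw [this]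
    simp only [hacc] at heq
    simp only [hA, hD] at heq ⊢
    exact heq

end Pool.Agent.Lib.MP_87e9f0_pr
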