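import Pool.Agent.Lib.MP_87e9f0_pr.Main

set_option autoImplicit false

open MeasureTheory ProbabilityTheory Filter Topology

namespace Pool.Agent.Lib.MP_87e9f0_pr

section Det

variable {d : ℕ} {Ω : Type*} {ξ : Kind × Site d × ℕ → Ω → ℝ} {ω : Ω} {lam p ε K : ℝ}

lemma block_times {B : Finset (Site d)} {M : ℕ} {z : Site d}
    (h : BlockEvent B M lam p ε K (fun k => ξ (k.1, k.2.1 + z, k.2.2) ω))
    (hε0 : 0 ≤ ε) (hlam : 0 < lam) (hM : 1 ≤ M)
    (hpos : ∀ (i : Site d) (n : ℕ), 0 < ξ (Kind.arrival, i, n) ω ∧ 0 < ξ (Kind.departure, i, n) ω)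
    {i : Site d} (hi : i ∈ B) :
    (∀ n : ℕ, eventTime ξ Kind.arrival (i + z) (M + n) ω
        ≤ (1 / lam + ε) * n + (1 / lam + 1 + 1 + ε + K)) ∧
    (∀ n : ℕ, (1 / lam - ε) * n - (1 / lam + 1 + 1 + ε + K)
        ≤ eventTime ξ Kind.arrival (i + z) (M + n) ω) ∧
    (∀ n : ℕ, eventTime ξ Kind.departure (i + z) n ω
        ≤ (1 + ε) * n + (1 / lam + 1 + 1 + ε + K)) ∧
    (∀ n : ℕ, (1 - ε) * n - (1 / lam + 1 + 1 + ε + K)
        ≤ eventTime ξ Kind.departure (i + z) n ω) ∧
    (∀ n : ℕ, n < M → eventTime ξ Kind.arrival (i + z) n ω ≤ 1) ∧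
    1 < eventTime ξ Kind.departure (i + z) 0 ω := by
  obtain ⟨h1, h2⟩ := h
  obtain ⟨h1a, h1d⟩ := h1 i hi
  obtain ⟨h2a, h2d, _⟩ := h2 i hi
  have hl : 0 < 1 / lam := by positivity
  have hMpos : (0 : ℝ) < M := by exact_mod_cast (by omega : 0 < M)
  simp only [shift] at h2a h2d
  have hinit : ∀ n : ℕ, n ≤ M → ∑ m ∈ Finset.range n, ξ (Kind.arrival, i + z, m) ω ≤ 1 := by
    intro n hn
    calc ∑ m ∈ Finset.range n, ξ (Kind.arrival, i + z, m) ω
        ≤ ∑ m ∈ Finset.range n, (1 / (M : ℝ)) := by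
          apply Finset.sum_le_sum
          intro m hm
          exact (h1a m (lt_of_lt_of_le (Finset.mem_range.1 hm) hn)).2
      _ = n * (1 / (M : ℝ)) := by rw [Finset.sum_const, Finset.card_range, nsmul_eq_mul]
      _ ≤ 1 := by
          rw [mul_one_div, div_le_one hMpos]
          exact_mod_cast hn
  have hinit0 : 0 ≤ ∑ m ∈ Finset.range M, ξ (Kind.arrival, i + z, m) ω :=
    Finset.sum_nonneg (fun m _ => (hpos _ _).1.le)
  have harr : ∀ n : ℕ, eventTime ξ Kind.arrival (i + z) (M + n) ω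
      = ∑ m ∈ Finset.range M, ξ (Kind.arrival, i + z, m) ω
        + ∑ k ∈ Finset.range (n + 1), ξ (Kind.arrival, i + z, M + k) ω := by
    intro n
    unfold eventTime
    rw [show M + n + 1 = M + (n + 1) by ring, Finset.sum_range_add]
  have hdep : ∀ n : ℕ, eventTime ξ Kind.departure (i + z) n ω
      = ξ (Kind.departure, i + z, 0) ω
        + ∑ k ∈ Finset.range n, ξ (Kind.departure, i + z, 1 + k) ω := by
    intro n
    unfold eventTime
    rw [show n + 1 = 1 + n by ring, Finset.sum_range_add]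
    simp
  refine ⟨?_, ?_, ?_, ?_, ?_, ?_⟩
  · intro n
    rw [harr n]
    have h3 := abs_le.1 (h2a (n + 1))
    have h4 := hinit M le_rfl
    push_cast at h3
    nlinarith [h3.2]
  · intro n
    rw [harr n]
    have h3 := abs_le.1 (h2a (n + 1))
    push_cast at h3
    nlinarith [h3.1]
  · intro n
    rw [hdep n]
    have h3 := abs_le.1 (h2d n)
    nlinarith [h3.2, h1d.2]
  · intro n
    rw [hdep n]
    have h3 := abs_le.1 (h2d n)
    nlinarith [h3.1, h1d.1]
  · intro n hn
    exact hinit (n + 1) hn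
  · rw [hdep 0]
    simpa using h1d.1

end Det

/-- Translates of the block along the first coordinate are disjoint. -/
lemma exists_translates {d : ℕ} (hd : 1 ≤ d) (B : Finset (Site d)) :
    ∃ z : ℕ → Site d, ∀ m n, m ≠ n → ∀ i ∈ B, ∀ j ∈ B, i + z m ≠ j + z n := by
  classical
  set k0 : Fin d := ⟨0, hd⟩ with hk0
  set R : ℤ := 2 * ∑ i ∈ B, |i k0| + 1 with hR
  refine ⟨fun m => Pi.single k0 ((m : ℤ) * R), ?_⟩
  intro m n hmn i hi j hj h
  have h1 := congrFun h k0
  simp only [Pi.add_apply, Pi.single_eq_same] at h1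
  have hbi : |i k0| ≤ ∑ i ∈ B, |i k0| :=
    Finset.single_le_sum (f := fun i : Site d => |i k0|) (fun _ _ => abs_nonneg _) hi
  have hbj : |j k0| ≤ ∑ i ∈ B, |i k0| :=
    Finset.single_le_sum (f := fun i : Site d => |i k0|) (fun _ _ => abs_nonneg _) hj
  have hRpos : 0 < R := by
    have := abs_nonneg (i k0)
    omega
  have hdiff : |i k0 - j k0| < R := by
    have := abs_sub (i k0) (j k0)
    omega
  have h2 : i k0 - j k0 = ((n : ℤ) - m) * R := by linarith
  rw [h2, abs_mul, abs_of_pos hRpos] at hdiff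
  have h3 : (1 : ℤ) ≤ |(n : ℤ) - m| := by
    apply Int.one_le_abs
    intro h4
    apply hmn
    omega
  nlinarith

/-- Linear growth spreads from one queue to all queues. -/
lemma spread_all {d : ℕ} {a : Site d → ℝ} (ha : IsInterference a) {lam p : ℝ} (hlam0 : 0 < lam)
    (hp0 : 0 < p) (hplam : p < lam) {Ω : Type*} {ξ : Kind × Site d × ℕ → Ω → ℝ} {ω : Ω}
    (hω2 : ∀ (i : Site d) (n : ℕ), 0 < ξ (Kind.arrival, i, n) ω ∧
      0 < ξ (Kind.departure, i, n) ω)
    (hω3 : ∀ i : Site d, ∀ ε : ℝ, 0 < ε → ∃ K : ℝ, 0 ≤ K ∧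
      LinBound lam p ε K (fun k => ξ k ω) i)
    {x : ℝ → Site d → ℕ}
    (hsite : ∀ i, SiteDyn (fun n => eventTime ξ Kind.arrival i n ω)
      (fun n => eventTime ξ Kind.departure i n ω)
      {n | ξ (Kind.mark, i, n) ω < departureRate a
        (fun j => Function.leftLim (fun s => x s j) (eventTime ξ Kind.departure i n ω)) i}
      (fun t => x t i))
    {j0 : Site d} (hstart : ∃ c : ℝ, 0 < c ∧ ∀ᶠ t in atTop, c * t ≤ x t j0) (i : Site d) :
    ∃ c : ℝ, 0 < c ∧ ∀ᶠ t in atTop, c * t ≤ x t i := by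
  have hspread : ∀ (i j : Site d), 0 < a (i - j) →
      (∃ c : ℝ, 0 < c ∧ ∀ᶠ t in atTop, c * t ≤ x t j) →
      ∃ c : ℝ, 0 < c ∧ ∀ᶠ t in atTop, c * t ≤ x t i := by
    rintro i j haij ⟨c, hc, hcg⟩
    have hZ := hZ_of_linBound (ξ := ξ) (ω := ω) (i := i) hlam0 hp0 hplam (fun n => hω2 i n)
      (fun e he => hω3 i e he)
    exact spread ha (i := i) (j := j) haij
      (arr := fun n => eventTime ξ Kind.arrival i n ω)
      (dep := fun n => eventTime ξ Kind.departure i n ω)
      (u := fun n => ξ (Kind.mark, i, n) ω) (x := x) (hsite i)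
      (fun D hD => (hsite j).eventually_const hD)
      (strictMono_eventTime (fun n => (hω2 i n).2)) hc hcg hp0 (sub_pos.2 hplam) hZ
  have hpath : ∀ (l : List (Site d)), (∀ i ∈ l, 0 < a i) → ∀ j : Site d,
      (∃ c : ℝ, 0 < c ∧ ∀ᶠ t in atTop, c * t ≤ x t j) →
      ∃ c : ℝ, 0 < c ∧ ∀ᶠ t in atTop, c * t ≤ x t (j + l.sum) := by
    intro l
    induction l with
    | nil => intro _ j hj; simpa using hj
    | cons i l ih =>
      intro hl j hj
      have h1 : ∃ c : ℝ, 0 < c ∧ ∀ᶠ t in atTop, c * t ≤ x t (j + i) := by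
        apply hspread (j + i) j _ hj
        rw [add_sub_cancel_left]
        exact hl i (by simp)
      have h2 := ih (fun k hk => hl k (by simp [hk])) (j + i) h1
      rw [List.sum_cons, ← add_assoc]
      exact h2
  obtain ⟨l, _, hl, hls⟩ := ha.irreducible (i - j0)
  have h := hpath l hl _ hstart
  rw [hls] at h
  simpa using h

/-- **Almost sure linear growth of every queue** above the critical rate. -/
theorem ae_linear_growth {d : ℕ} (hd : 1 ≤ d) {a : Site d → ℝ} (ha : IsInterference a) {lam : ℝ}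
    (hlam : 1 / ∑ᶠ j, a j < lam) {Ω : Type*} [MeasurableSpace Ω] {P : Measure Ω}
    [IsProbabilityMeasure P] {ξ : Kind × Site d × ℕ → Ω → ℝ} (hξ : IsGraphicalData P lam ξ)
    {x : ℝ → Ω → Site d → ℕ} (hx : IsNetworkProcess P a ξ x) :
    ∀ᵐ ω ∂P, ∀ i : Site d, ∃ c : ℝ, 0 < c ∧ ∀ᶠ t in atTop, c * t ≤ x t ω i := by
  classical
  -- the sum of the interference sequence is positive
  have hsum1 : 1 ≤ ∑ᶠ j, a j := by
    have h1 := single_le_finsum (0 : Site d) ha.finite_support ha.nonneg
    rwa [ha.zero] at h1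
  have hSpos : 0 < ∑ᶠ j, a j := by linarith
  have hlam0 : 0 < lam := lt_trans (by positivity) hlam
  have hl : 0 < 1 / lam := by positivity
  have hc : 1 / lam < ∑ᶠ j, a j := by
    rw [div_lt_iff₀ hSpos] at hlam
    rw [div_lt_iff₀ hlam0]
    linarith
  obtain ⟨B, φ, ρ0, hBne, hφpos, hφ0, hρ0, hφρ0⟩ := exists_perron ha hl hc
  have hφnn : ∀ i, 0 ≤ φ i := by
    intro i
    by_cases hi : i ∈ B
    · exact (hφpos i hi).le
    · rw [hφ0 i hi]
  -- replace `ρ0` by `ρ = max ρ0 1`
  set ρ : ℝ := max ρ0 1 with hρdef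
  have hρ1 : 1 ≤ ρ := le_max_right _ _
  have hρlam : 1 < lam * ρ := by
    have h1 : 1 / lam < ρ := lt_of_lt_of_le hρ0 (le_max_left _ _)
    rw [div_lt_iff₀ hlam0] at h1
    linarith
  have hφρ : ∀ i ∈ B, ρ * φ i ≤ ∑ᶠ j, a j * φ (i - j) := by
    intro i hi
    rcases max_cases ρ0 1 with ⟨h1, _⟩ | ⟨h1, _⟩
    · rw [hρdef, h1]; exact hφρ0 i hi
    · rw [hρdef, h1, one_mul]
      have hfin : (Function.support (fun j => a j * φ (i - j))).Finite := by
        apply ha.finite_support.subset
        intro k hk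
        rw [Function.mem_support] at hk ⊢
        exact left_ne_zero_of_mul hk
      have h2 := single_le_finsum (0 : Site d) hfin
        (fun j => mul_nonneg (ha.nonneg j) (hφnn (i - j)))
      simpa [ha.zero] using h2
  -- the parameter `η`
  set η : ℝ := (lam * ρ - 1) / 2 with hηdef
  have hη : 0 < η := by rw [hηdef]; linarith
  set p : ℝ := (1 + η) / (ρ + η) with hpdef
  have hp0 : 0 < p := by positivity
  have hp1 : p ≤ 1 := by
    rw [hpdef, div_le_one (by linarith)]
    linarith
  have hplam : p < lam := by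
    rw [hpdef, div_lt_iff₀ (by linarith)]
    nlinarith
  set γ : ℝ := lam - p with hγdef
  have hγ : 0 < γ := by rw [hγdef]; linarith
  -- bounds of the profile on the block
  obtain ⟨imax, himax, hmax⟩ := B.exists_max_image φ hBne
  obtain ⟨imin, himin, hmin⟩ := B.exists_min_image φ hBne
  have hφmax := hφpos imax himax
  have hφmin := hφpos imin himin
  set κ : ℝ := γ / (2 * (1 + η) * φ imax) with hκdef
  have hκ : 0 < κ := by positivity
  have hκmax : (1 + η) * φ imax * κ = γ / 2 := by
    rw [hκdef]; field_simp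
  set ε : ℝ := min (η * φ imin * κ) (γ / 2) with hεdef
  have hε : 0 < ε := by positivity
  obtain ⟨ε', he0, hep, he1, he2, hc1, hc2⟩ := exists_accuracy hlam0 hp0 hε
  have hinst : ∀ k, IsProbabilityMeasure (inputLaw lam k) :=
    fun k => isProbabilityMeasure_inputLaw hlam0 k
  obtain ⟨K, hK0, hKpos⟩ := exists_blockEvent_pos B hlam0 hp0.le hp1 he0
  set C : ℝ := 1 / lam + 1 + 1 + ε' + K with hCdef
  have hC0 : 0 ≤ C := by positivity
  set KZ : ℝ := C / (1 / lam + ε') + C / (1 / lam - ε') + 1 + (p + ε') * (C / (1 - ε') + 1)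
    + 2 * K + (p - ε') * C / (1 + ε') with hKZdef
  have hKZ0 : 0 ≤ KZ := by
    have e1 : 0 ≤ C / (1 / lam + ε') := by positivity
    have e2 : 0 ≤ C / (1 / lam - ε') := div_nonneg hC0 (by linarith)
    have e3 : 0 ≤ (p + ε') * (C / (1 - ε') + 1) :=
      mul_nonneg (by linarith) (add_nonneg (div_nonneg hC0 (by linarith)) zero_le_one)
    have e4 : 0 ≤ (p - ε') * C / (1 + ε') :=
      div_nonneg (mul_nonneg (by linarith) hC0) (by linarith)
    rw [hKZdef]
    linarith
  set b : ℝ := (1 + KZ) / (η * φ imin) with hbdef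
  have hb : 0 ≤ b := by positivity
  obtain ⟨M, hM⟩ := exists_nat_ge (max 1 (KZ + γ + φ imax * b))
  have hM1 : 1 ≤ M := by
    have : (1 : ℝ) ≤ M := (le_max_left _ _).trans hM
    exact_mod_cast this
  have hM2 : KZ + γ + φ imax * b ≤ M := (le_max_right _ _).trans hM
  obtain ⟨z, hz⟩ := exists_translates hd B
  have hblock := ae_exists_blockEvent hξ B M p ε' K (hKpos M hM1) z hz
  have hpos := ae_gaps_pos hξ hlam0
  -- parameters for the spreading
  set p1 : ℝ := min 1 lam / 2 with hp1def
  have hp10 : 0 < p1 := by positivity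
  have hp11 : p1 ≤ 1 := by
    have : min 1 lam ≤ 1 := min_le_left _ _
    linarith
  have hp1lam : p1 < lam := by
    have : min 1 lam ≤ lam := min_le_right _ _
    linarith
  have hlin := ae_linBound hξ hlam0 hp10.le hp11
  filter_upwards [hblock, hpos, hlin, hx.dynamics] with ω hω1 hω2 hω3 hω4
  -- the one-queue dynamics
  have hsite : ∀ i, SiteDyn (fun n => eventTime ξ Kind.arrival i n ω)
      (fun n => eventTime ξ Kind.departure i n ω)
      {n | ξ (Kind.mark, i, n) ω < departureRate a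
        (fun j => Function.leftLim (fun s => x s ω j) (eventTime ξ Kind.departure i n ω)) i}
      (fun t => x t ω i) := fun i => siteDyn_of (x := fun t => x t ω) hlam0 hω4 hω3 i
  -- growth in a block
  obtain ⟨m, hm⟩ := hω1
  set B' : Finset (Site d) := B.image (fun i => i + z m) with hB'
  have hmemB' : ∀ i, i ∈ B' ↔ i - z m ∈ B := by
    intro i
    rw [hB', Finset.mem_image]
    constructor
    · rintro ⟨j, hj, rfl⟩
      simpa using hj
    · intro hi
      exact ⟨i - z m, hi, by simp⟩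
  set φ' : Site d → ℝ := fun i => φ (i - z m) with hφ'
  have hgrow := block_growth ha (B := B') (φ := φ') (ρ := ρ) (η := η) hρ1 hη
    (fun i hi => hφpos _ ((hmemB' i).1 hi))
    (fun i hi => hφ0 _ (fun h => hi ((hmemB' i).2 h)))
    (by
      intro i hi
      have := hφρ _ ((hmemB' i).1 hi)
      rw [hφ']
      refine this.trans (le_of_eq ?_)
      apply finsum_congr
      intro j
      rw [sub_right_comm])
    (arr := fun i n => eventTime ξ Kind.arrival i n ω)
    (dep := fun i n => eventTime ξ Kind.departure i n ω)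
    (u := fun i n => ξ (Kind.mark, i, n) ω) (x := fun t => x t ω)
    (fun i _ => hsite i)
    (fun i _ => strictMono_eventTime (fun n => (hω2 i n).2))
    (κ := κ) (b := b) (γ := γ) (ε := ε) (K := KZ) hκ.le hb
    (by
      intro i hi s t hs hst
      have hiB := (hmemB' i).1 hi
      obtain ⟨t1, t2, t3, t4, t5, t6⟩ := block_times hm he0.le hlam0 hM1 hω2 hiB
      have hiz : i - z m + z m = i := by simp
      rw [hiz] at t1 t2 t3 t4 t5 t6
      have hU := (hm.2 _ hiB).2.2
      simp only [shift, hiz] at hU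
      have h := increments_lower (fun n => eventTime ξ Kind.arrival i n ω)
        (fun n => eventTime ξ Kind.departure i n ω) (fun n => ξ (Kind.mark, i, n) ω)
        (strictMono_eventTime (fun n => (hω2 i n).1)).monotone
        (strictMono_eventTime (fun n => (hω2 i n).2)).monotone (M := M)
        (α := 1 / lam + ε') (β := 1 / lam - ε') (α' := 1 + ε') (β' := 1 - ε') (C := C) (p := p)
        (ε := ε') (K := K) (by positivity) (by linarith) (by positivity) (by linarith) hC0 hep
        he0.le t1 t2 t3 t4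
        (by intro n; rw [card_filter_eq_sum]; exact hU n)
        (by linarith : (0 : ℝ) ≤ s) hst (fun n hn => (t5 n hn).trans hs)
      exact increments_simplify hc1 hc2 (by linarith) hst hε.le h)
    (by
      intro i hi
      have hiB := (hmemB' i).1 hi
      obtain ⟨t1, t2, t3, t4, t5, t6⟩ := block_times hm he0.le hlam0 hM1 hω2 hiB
      have hiz : i - z m + z m = i := by simp
      rw [hiz] at t1 t2 t3 t4 t5 t6
      have heq := (hsite i).eq_ncard zero_le_one
      have hdep0 : {n | eventTime ξ Kind.departure i n ω ≤ 1 ∧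
          n ∈ {n | ξ (Kind.mark, i, n) ω < departureRate a
            (fun j => Function.leftLim (fun s => x s ω j)
              (eventTime ξ Kind.departure i n ω)) i}} = ∅ := by
        rw [Set.eq_empty_iff_forall_notMem]
        rintro n ⟨hn, _⟩
        have h1 : eventTime ξ Kind.departure i 0 ω ≤ eventTime ξ Kind.departure i n ω :=
          (strictMono_eventTime (fun n => (hω2 i n).2)).monotone (Nat.zero_le n)
        linarith
      rw [hdep0, Set.ncard_empty, add_zero] at heq
      have hsub : (Finset.range M : Set ℕ) ⊆ {n | eventTime ξ Kind.arrival i n ω ≤ 1} := by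
        intro n hn
        exact t5 n (by simpa using hn)
      have hcard := Set.ncard_le_ncard hsub ((hsite i).finA 1)
      rw [Set.ncard_coe_finset, Finset.card_range, ← heq] at hcard
      have hcard' : (M : ℝ) ≤ x 1 ω i := by exact_mod_cast hcard
      have h2 : φ' i * b ≤ φ imax * b := mul_le_mul_of_nonneg_right (hmax _ hiB) hb
      show KZ + γ + φ' i * b ≤ (x 1 ω i : ℝ)
      linarith)
    (by
      intro i hi
      have h1 := hmax _ ((hmemB' i).1 hi)
      have h2 : (1 + η) * φ' i * κ ≤ (1 + η) * φ imax * κ := by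
        apply mul_le_mul_of_nonneg_right _ hκ.le
        exact mul_le_mul_of_nonneg_left h1 (by linarith)
      linarith)
    (by
      intro i hi
      have h1 := hmax _ ((hmemB' i).1 hi)
      have h0 : 0 ≤ φ' i := hφnn _
      have h2 : φ' i * κ ≤ (1 + η) * φ imax * κ := by
        apply mul_le_mul_of_nonneg_right _ hκ.le
        have : φ' i ≤ φ imax := h1
        nlinarith
      have h3 : ε ≤ γ / 2 := min_le_right _ _
      linarith)
    (by
      intro i hi
      have h1 := hmin _ ((hmemB' i).1 hi)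
      have h3 : ε ≤ η * φ imin * κ := min_le_left _ _
      refine h3.trans ?_
      apply mul_le_mul_of_nonneg_right _ hκ.le
      exact mul_le_mul_of_nonneg_left h1 hη.le)
    (by
      intro i hi
      have h1 := hmin _ ((hmemB' i).1 hi)
      have h2 : η * φ imin * b = 1 + KZ := by
        rw [hbdef]; field_simp
      rw [← h2]
      apply mul_le_mul_of_nonneg_right _ hb
      exact mul_le_mul_of_nonneg_left h1 hη.le)
  -- one queue grows linearly
  obtain ⟨i0, hi0⟩ := hBne
  have hi0' : i0 + z m ∈ B' := by rw [hmemB']; simpa using hi0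
  have hstart : ∃ c : ℝ, 0 < c ∧ ∀ᶠ t in atTop, c * t ≤ x t ω (i0 + z m) := by
    have hφi : 0 < φ' (i0 + z m) := by
      have := hφpos i0 hi0
      simpa [hφ'] using this
    refine ⟨φ' (i0 + z m) * κ, by positivity, ?_⟩
    filter_upwards [eventually_ge_atTop (1 : ℝ)] with t ht
    have h1 := hgrow t ht _ hi0'
    have h2 : 0 ≤ φ' (i0 + z m) * b := mul_nonneg hφi.le hb
    have h3 : φ' (i0 + z m) * (κ * t + b) ≤ (x t ω (i0 + z m) : ℝ) := h1
    nlinarith
  exact spread_all ha hlam0 hp10 hp1lam hω2 hω3 hsite hstart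

end Pool.Agent.Lib.MP_87e9f0_pr
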