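import Pool.Agent.Lib.MP_87e9f0_pr.Defs

set_option autoImplicit false

open MeasureTheory ProbabilityTheory Filter Topology

namespace Pool.Agent.Lib.MP_87e9f0_pr

/-- The dynamics of one queue, for fixed randomness: arrival times `arr`, potential departure
times `dep`, the set `acc` of accepted potential departures, and the queue length `x`. -/
structure SiteDyn (arr dep : ℕ → ℝ) (acc : Set ℕ) (x : ℝ → ℕ) : Prop where
  eq : ∀ t, 0 ≤ t → (x t : ℕ∞) + {n | dep n ≤ t ∧ n ∈ acc}.encard = {n | arr n ≤ t}.encard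
  finA : ∀ t, {n | arr n ≤ t}.Finite
  finD : ∀ t, {n | dep n ≤ t}.Finite

variable {arr dep : ℕ → ℝ} {acc : Set ℕ} {x : ℝ → ℕ}

lemma SiteDyn.eq_ncard (h : SiteDyn arr dep acc x) {t : ℝ} (ht : 0 ≤ t) :
    x t + {n | dep n ≤ t ∧ n ∈ acc}.ncard = {n | arr n ≤ t}.ncard := by
  have h1 := h.eq t ht
  have hf : {n | dep n ≤ t ∧ n ∈ acc}.Finite := (h.finD t).subset (fun n hn => hn.1)
  rw [← hf.cast_ncard_eq, ← (h.finA t).cast_ncard_eq] at h1
  exact_mod_cast h1

lemma ncard_split (T : ℕ → ℝ) (A : Set ℕ) {s t : ℝ} (hst : s ≤ t)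
    (hf : {n | T n ≤ t}.Finite) :
    {n | T n ≤ t ∧ n ∈ A}.ncard
      = {n | T n ≤ s ∧ n ∈ A}.ncard + {n | s < T n ∧ T n ≤ t ∧ n ∈ A}.ncard := by
  have hf1 : {n | T n ≤ s ∧ n ∈ A}.Finite := hf.subset (fun n hn => hn.1.trans hst)
  have hf2 : {n | s < T n ∧ T n ≤ t ∧ n ∈ A}.Finite := hf.subset (fun n hn => hn.2.1)
  rw [← Set.ncard_union_eq _ hf1 hf2]
  · congr 1
    ext n
    simp only [Set.mem_ofPred_eq, Set.mem_union]
    constructor
    · rintro ⟨h1, h2⟩
      rcases le_or_gt (T n) s with h | h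
      · exact Or.inl ⟨h, h2⟩
      · exact Or.inr ⟨h, h1, h2⟩
    · rintro (⟨h1, h2⟩ | ⟨h1, h2, h3⟩)
      · exact ⟨h1.trans hst, h2⟩
      · exact ⟨h2, h3⟩
  · rw [Set.disjoint_left]
    rintro n ⟨h1, _⟩ ⟨h2, _⟩
    exact absurd h1 (not_le.2 h2)

lemma SiteDyn.increment (h : SiteDyn arr dep acc x) {s t : ℝ} (hs : 0 ≤ s) (hst : s ≤ t) :
    (x t : ℝ) + ({n | s < dep n ∧ dep n ≤ t ∧ n ∈ acc}.ncard : ℝ)
      = x s + ({n | s < arr n ∧ arr n ≤ t}.ncard : ℝ) := by
  have h1 := h.eq_ncard (hs.trans hst)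
  have h2 := h.eq_ncard hs
  have h3 := ncard_split dep acc hst (h.finD t)
  have h4 := ncard_split arr Set.univ hst (h.finA t)
  simp only [Set.mem_univ, and_true] at h4
  have h5 : x t + {n | s < dep n ∧ dep n ≤ t ∧ n ∈ acc}.ncard
      = x s + {n | s < arr n ∧ arr n ≤ t}.ncard := by omega
  exact_mod_cast h5

lemma eventually_setOf_le_eq (T : ℕ → ℝ) {D : ℝ} (hf : {n | T n ≤ D}.Finite) :
    ∀ᶠ s in 𝓝[<] D, ∀ n, T n ≤ s ↔ T n < D := by
  have h1 : ∀ᶠ s in 𝓝[<] D, ∀ n ∈ {n | T n ≤ D}, T n < D → T n ≤ s := by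
    rw [Filter.eventually_all_finite hf]
    intro n _
    by_cases h : T n < D
    · have : ∀ᶠ s in 𝓝[<] D, T n < s :=
        (eventually_nhdsWithin_of_eventually_nhds (lt_mem_nhds h))
      filter_upwards [this] with s hs _ using hs.le
    · exact Eventually.of_forall (fun s hh => absurd hh h)
  filter_upwards [h1, self_mem_nhdsWithin] with s hs hsD n
  constructor
  · intro h
    exact lt_of_le_of_lt h hsD
  · intro h
    exact hs n h.le h

lemma SiteDyn.eventually_const (h : SiteDyn arr dep acc x) {D : ℝ} (hD : 0 < D) :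
    ∃ c : ℕ, (∀ᶠ s in 𝓝[<] D, x s = c) ∧ Function.leftLim x D = c := by
  have h1 := eventually_setOf_le_eq arr (h.finA D)
  have h2 := eventually_setOf_le_eq dep (h.finD D)
  have h3 : ∀ᶠ s in 𝓝[<] D, 0 < s := eventually_nhdsWithin_of_eventually_nhds (lt_mem_nhds hD)
  have key : ∀ᶠ s in 𝓝[<] D, x s =
      {n | arr n < D}.ncard - {n | dep n < D ∧ n ∈ acc}.ncard := by
    filter_upwards [h1, h2, h3] with s hs1 hs2 hs3
    have h4 := h.eq_ncard hs3.le
    simp only [hs1, hs2] at h4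
    omega
  refine ⟨_, key, ?_⟩
  exact leftLim_eq_of_tendsto ((tendsto_const_nhds).congr' (key.mono (fun s hs => hs.symm)))

/-- The basic one-site comparison: if every accepted departure in `(t0, t]` is either `good` or
happens while the queue is above the level `lev`, then either the queue grows at least by
arrivals minus good departures since `t0`, or the same holds (up to one customer) since some time
`s` at which the queue was above the level. -/
lemma SiteDyn.step (h : SiteDyn arr dep acc x) (hmono : StrictMono dep) {t0 t : ℝ}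
    (ht0 : 0 ≤ t0) (htt : t0 ≤ t) (good : Set ℕ) (lev : ℝ → ℝ) (hlev : Monotone lev)
    (hacc : ∀ n ∈ acc, t0 < dep n → dep n ≤ t →
      n ∈ good ∨ lev (dep n) < (Function.leftLim x (dep n) : ℕ)) :
    ((x t0 : ℝ) + ({n | t0 < arr n ∧ arr n ≤ t}.ncard : ℝ)
        - ({n | t0 < dep n ∧ dep n ≤ t ∧ n ∈ good}.ncard : ℝ) ≤ x t) ∨
    ∃ s, t0 ≤ s ∧ s < t ∧ lev s < x s ∧
      ((x s : ℝ) - 1 + ({n | s < arr n ∧ arr n ≤ t}.ncard : ℝ)
        - ({n | s < dep n ∧ dep n ≤ t ∧ n ∈ good}.ncard : ℝ) ≤ x t) := by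
  classical
  set A : Set ℕ := {n | t0 < dep n ∧ dep n ≤ t ∧ n ∈ acc ∧ n ∉ good} with hA
  have hAfin : A.Finite := (h.finD t).subset (fun n hn => hn.2.1)
  by_cases hne : A.Nonempty
  · right
    obtain ⟨m, hm, hmax⟩ := hAfin.toFinset.exists_max_image id (by simpa using hne)
    simp only [Set.Finite.mem_toFinset, id] at hm hmax
    have hDpos : 0 < dep m := lt_of_le_of_lt ht0 hm.1
    obtain ⟨c, hc, hlim⟩ := h.eventually_const hDpos
    have hlevm : lev (dep m) < (c : ℝ) := by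
      rcases hacc m hm.2.2.1 hm.1 hm.2.1 with h1 | h1
      · exact absurd h1 hm.2.2.2
      · rw [hlim] at h1; exact h1
    have h2 := eventually_setOf_le_eq dep (h.finD (dep m))
    have h3 : ∀ᶠ s in 𝓝[<] (dep m), t0 < s :=
      eventually_nhdsWithin_of_eventually_nhds (lt_mem_nhds hm.1)
    have h4 : ∀ᶠ s in 𝓝[<] (dep m), s < dep m := self_mem_nhdsWithin
    obtain ⟨s, hs1, hs2, hs3, hs4⟩ := (hc.and (h2.and (h3.and h4))).exists
    refine ⟨s, hs3.le, lt_of_lt_of_le hs4 hm.2.1, ?_, ?_⟩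
    · rw [hs1]
      exact lt_of_le_of_lt (hlev hs4.le) hlevm
    · have hst : s ≤ t := (hs4.le).trans hm.2.1
      have hinc := h.increment (ht0.trans hs3.le) hst
      have hsub : {n | s < dep n ∧ dep n ≤ t ∧ n ∈ acc} ⊆
          insert m {n | s < dep n ∧ dep n ≤ t ∧ n ∈ good} := by
        rintro n ⟨hn1, hn2, hn3⟩
        by_cases hng : n ∈ good
        · exact Or.inr ⟨hn1, hn2, hng⟩
        · left
          have hnA : n ∈ A := ⟨lt_trans hs3 hn1, hn2, hn3, hng⟩
          have hnm : n ≤ m := hmax n hnA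
          rcases hnm.eq_or_lt with h5 | h5
          · exact h5
          · exfalso
            have h6 : dep n < dep m := hmono h5
            have h7 : dep n ≤ s := (hs2 n).2 h6
            exact absurd h7 (not_le.2 hn1)
      have hfin : (insert m {n | s < dep n ∧ dep n ≤ t ∧ n ∈ good}).Finite :=
        Set.Finite.insert m ((h.finD t).subset (fun n hn => hn.2.1))
      have hcard : {n | s < dep n ∧ dep n ≤ t ∧ n ∈ acc}.ncard ≤
          {n | s < dep n ∧ dep n ≤ t ∧ n ∈ good}.ncard + 1 :=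
        (Set.ncard_le_ncard hsub hfin).trans (Set.ncard_insert_le _ _)
      have hcard' : ({n | s < dep n ∧ dep n ≤ t ∧ n ∈ acc}.ncard : ℝ) ≤
          ({n | s < dep n ∧ dep n ≤ t ∧ n ∈ good}.ncard : ℝ) + 1 := by exact_mod_cast hcard
      linarith
  · left
    have hinc := h.increment ht0 htt
    have hsub : {n | t0 < dep n ∧ dep n ≤ t ∧ n ∈ acc} ⊆
        {n | t0 < dep n ∧ dep n ≤ t ∧ n ∈ good} := by
      rintro n ⟨hn1, hn2, hn3⟩
      refine ⟨hn1, hn2, ?_⟩
      by_contra hng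
      exact hne ⟨n, hn1, hn2, hn3, hng⟩
    have hfin : {n | t0 < dep n ∧ dep n ≤ t ∧ n ∈ good}.Finite :=
      (h.finD t).subset (fun n hn => hn.2.1)
    have hcard' : ({n | t0 < dep n ∧ dep n ≤ t ∧ n ∈ acc}.ncard : ℝ) ≤
        ({n | t0 < dep n ∧ dep n ≤ t ∧ n ∈ good}.ncard : ℝ) := by
      exact_mod_cast Set.ncard_le_ncard hsub hfin
    linarith

/-- Bound for the departure rate of a queue at most `1 + η` times above the linear profile, when
all queues are above the profile. -/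
lemma departureRate_le {d : ℕ} {a : Site d → ℝ} (ha : IsInterference a) {φ : Site d → ℝ}
    {ρ η θ : ℝ} (hρ : 1 ≤ ρ) (hη : 0 < η) {y : Site d → ℕ} {i : Site d}
    (hi : ρ * φ i ≤ ∑ᶠ j, a j * φ (i - j)) (hθ : 0 ≤ θ)
    (hy : ∀ j, θ * φ j ≤ y j) (hyi : (y i : ℝ) ≤ (1 + η) * (θ * φ i)) :
    departureRate a y i ≤ (1 + η) / (ρ + η) := by
  classical
  set S := insert (0 : Site d) ha.finite_support.toFinset with hS
  have hsupp : ∀ f : Site d → ℝ, ∑ᶠ j, a j * f (i - j) = ∑ j ∈ S, a j * f (i - j) := by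
    intro f
    apply finsum_eq_sum_of_support_subset
    intro j hj
    rw [Function.mem_support] at hj
    have : a j ≠ 0 := left_ne_zero_of_mul hj
    simp [hS, this]
  have h0S : (0 : Site d) ∈ S := by simp [hS]
  have hden : θ * (ρ * φ i) + ((y i : ℝ) - θ * φ i) ≤ ∑ᶠ j, a j * (y (i - j) : ℝ) := by
    have h1 : ∑ᶠ j, a j * (y (i - j) : ℝ) = ∑ j ∈ S, a j * (y (i - j) : ℝ) :=
      hsupp (fun k => (y k : ℝ))
    rw [h1]
    rw [hsupp φ] at hi
    have h2 : (a 0 * ((y (i - 0) : ℝ) - θ * φ (i - 0))) ≤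
        ∑ j ∈ S, a j * ((y (i - j) : ℝ) - θ * φ (i - j)) := by
      apply Finset.single_le_sum (f := fun j => a j * ((y (i - j) : ℝ) - θ * φ (i - j)))
      · intro j _
        exact mul_nonneg (ha.nonneg j) (sub_nonneg.2 (hy (i - j)))
      · exact h0S
    rw [ha.zero, sub_zero, one_mul] at h2
    have h3 : ∑ j ∈ S, a j * ((y (i - j) : ℝ) - θ * φ (i - j))
        = ∑ j ∈ S, a j * (y (i - j) : ℝ) - θ * ∑ j ∈ S, a j * φ (i - j) := by
      rw [Finset.mul_sum, ← Finset.sum_sub_distrib]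
      apply Finset.sum_congr rfl
      intro j _
      ring
    rw [h3] at h2
    have h4 := mul_le_mul_of_nonneg_left hi hθ
    linarith
  unfold departureRate
  rcases (Nat.eq_zero_or_pos (y i)) with hy0 | hypos
  · rw [hy0]
    simp only [Nat.cast_zero, zero_div]
    positivity
  · have hypos' : (0 : ℝ) < y i := by exact_mod_cast hypos
    have hφθ : 0 < θ * φ i := by
      by_contra hneg
      push Not at hneg
      have : (1 + η) * (θ * φ i) ≤ 0 := mul_nonpos_of_nonneg_of_nonpos (by linarith) hneg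
      linarith
    have hDpos : 0 < ∑ᶠ j, a j * (y (i - j) : ℝ) := by
      refine lt_of_lt_of_le ?_ hden
      have : 0 ≤ (ρ - 1) * (θ * φ i) := mul_nonneg (by linarith) hφθ.le
      nlinarith
    rw [div_le_div_iff₀ hDpos (by linarith)]
    have h5 : (ρ - 1) * (y i : ℝ) ≤ (ρ - 1) * ((1 + η) * (θ * φ i)) :=
      mul_le_mul_of_nonneg_left hyi (by linarith)
    have h6 : (1 + η) * (θ * (ρ * φ i) + ((y i : ℝ) - θ * φ i)) ≤
        (1 + η) * ∑ᶠ j, a j * (y (i - j) : ℝ) := mul_le_mul_of_nonneg_left hden (by linarith)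
    nlinarith

end Pool.Agent.Lib.MP_87e9f0_pr
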