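import Pool.Agent.Lib.MP_87e9f0_pr.Counts

set_option autoImplicit false

open MeasureTheory ProbabilityTheory Filter Topology

namespace Pool.Agent.Lib.MP_87e9f0_pr

lemma integral_id_expMeasure {r : ℝ} (hr : 0 < r) : ∫ x, x ∂(expMeasure r) = 1 / r := by
  have h1 : ∫ x, x ∂(expMeasure r) = ∫ x, (gammaPDF 1 r x).toReal • x := by
    rw [expMeasure, gammaMeasure]
    apply integral_withDensity_eq_integral_toReal_smul
    · exact (measurable_gammaPDFReal 1 r).ennreal_ofReal
    · exact ae_of_all _ (fun x => ENNReal.ofReal_lt_top)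
  rw [h1]
  have h2 : (fun x => (gammaPDF 1 r x).toReal • x)
      = Set.indicator (Set.Ioi 0) (fun x : ℝ => r * (x ^ ((2 : ℝ) - 1) * Real.exp (-(r * x)))) := by
    funext x
    rw [gammaPDF, ENNReal.toReal_ofReal (gammaPDFReal_nonneg one_pos hr x), gammaPDFReal]
    rcases lt_trichotomy x 0 with hx | hx | hx
    · rw [if_neg (not_le.2 hx), Set.indicator_of_notMem (by simp [hx.le])]
      simp
    · subst hx
      simp
    · rw [if_pos hx.le, Set.indicator_of_mem (Set.mem_Ioi.2 hx)]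
      norm_num
      ring
  rw [h2, integral_indicator measurableSet_Ioi, integral_const_mul,
    Real.integral_rpow_mul_exp_neg_mul_Ioi (by norm_num) hr]
  rw [Real.Gamma_two]
  rw [show (2 : ℝ) = ((2 : ℕ) : ℝ) by norm_num, Real.rpow_natCast]
  field_simp

lemma integrable_id_expMeasure {r : ℝ} (hr : 0 < r) : Integrable (fun x : ℝ => x) (expMeasure r) := by
  by_contra h
  have h1 := integral_id_expMeasure hr
  rw [integral_undef h] at h1
  have : 0 < 1 / r := by positivity
  linarith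

lemma expMeasure_Ioc_pos {r s t : ℝ} (hr : 0 < r) (hs : 0 ≤ s) (hst : s < t) :
    0 < (expMeasure r) (Set.Ioc s t) := by
  have := isProbabilityMeasure_expMeasure hr
  rw [← measure_cdf (μ := expMeasure r), StieltjesFunction.measure_Ioc]
  rw [cdf_expMeasure_eq hr, cdf_expMeasure_eq hr, if_pos (hs.trans hst.le), if_pos hs]
  rw [ENNReal.ofReal_pos]
  have : Real.exp (-(r * t)) < Real.exp (-(r * s)) := by
    apply Real.exp_lt_exp.2
    nlinarith
  linarith

lemma ae_pos_expMeasure {r : ℝ} (hr : 0 < r) : ∀ᵐ x ∂(expMeasure r), 0 < x := by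
  have := isProbabilityMeasure_expMeasure hr
  rw [ae_iff]
  have h1 : {x : ℝ | ¬ 0 < x} = Set.Iic 0 := by ext x; simp
  rw [h1]
  have h2 : (expMeasure r) (Set.Iic 0) = ENNReal.ofReal (cdf (expMeasure r) 0) := (ofReal_cdf _ _).symm
  rw [h2, cdf_expMeasure_eq hr]
  simp

lemma isProbabilityMeasure_inputLaw {lam : ℝ} (hlam : 0 < lam) (k : Kind) :
    IsProbabilityMeasure (inputLaw lam k) := by
  cases k with
  | arrival => exact isProbabilityMeasure_expMeasure hlam
  | departure => exact isProbabilityMeasure_expMeasure one_pos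
  | mark =>
    refine ⟨?_⟩
    simp [inputLaw]

lemma mark_Iio {p : ℝ} (hp0 : 0 ≤ p) (hp1 : p ≤ 1) :
    (volume.restrict (Set.Icc (0 : ℝ) 1)) (Set.Iio p) = ENNReal.ofReal p := by
  rw [Measure.restrict_apply measurableSet_Iio]
  have : Set.Iio p ∩ Set.Icc 0 1 = Set.Ico 0 p := by
    ext x
    simp only [Set.mem_inter_iff, Set.mem_Iio, Set.mem_Icc, Set.mem_Ico]
    constructor
    · rintro ⟨h1, h2, h3⟩; exact ⟨h2, h1⟩
    · rintro ⟨h1, h2⟩; exact ⟨h2, h1, h2.le.trans hp1⟩
  rw [this, Real.volume_Ico, sub_zero]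

/-- A quantitative form of `S n / n → m`: linear bounds with arbitrarily small slope error. -/
lemma linear_bound_of_tendsto {S : ℕ → ℝ} {m : ℝ}
    (h : Tendsto (fun n : ℕ => S n / n) atTop (𝓝 m)) {ε : ℝ} (hε : 0 < ε) :
    ∃ K : ℝ, 0 ≤ K ∧ ∀ n : ℕ, |S n - m * n| ≤ ε * n + K := by
  have h1 : ∀ᶠ n : ℕ in atTop, |S n / n - m| < ε := by
    have := (Metric.tendsto_atTop.1 h) ε hε
    obtain ⟨N, hN⟩ := this
    filter_upwards [eventually_ge_atTop N] with n hn
    have := hN n hn
    rwa [Real.dist_eq] at this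
  obtain ⟨N, hN⟩ := eventually_atTop.1 h1
  refine ⟨∑ n ∈ Finset.range (N + 1), |S n - m * n|,
    Finset.sum_nonneg (fun _ _ => abs_nonneg _), fun n => ?_⟩
  rcases le_or_gt n N with hn | hn
  · have h2 : |S n - m * n| ≤ ∑ n ∈ Finset.range (N + 1), |S n - m * n| :=
      Finset.single_le_sum (f := fun n : ℕ => |S n - m * n|) (fun _ _ => abs_nonneg _)
        (Finset.mem_range.2 (by omega))
    have : 0 ≤ ε * n := by positivity
    linarith
  · have hnpos : (0 : ℝ) < n := by exact_mod_cast (by omega : 0 < n)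
    have h2 := hN n hn.le
    have h3 : S n - m * n = (S n / n - m) * n := by field_simp
    rw [h3, abs_mul, abs_of_pos hnpos]
    have h4 : 0 ≤ ∑ n ∈ Finset.range (N + 1), |S n - m * n| :=
      Finset.sum_nonneg (fun _ _ => abs_nonneg _)
    have h5 := mul_le_mul_of_nonneg_right h2.le hnpos.le
    linarith

lemma slln_bound {Ω : Type*} [MeasurableSpace Ω] {P : Measure Ω} [IsProbabilityMeasure P]
    (X : ℕ → Ω → ℝ) (hX : iIndepFun X P) (hm : ∀ n, Measurable (X n)) {ν : Measure ℝ}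
    (hlaw : ∀ n, P.map (X n) = ν) (hint : Integrable (fun x : ℝ => x) ν) :
    ∀ᵐ ω ∂P, ∀ ε : ℝ, 0 < ε → ∃ K : ℝ, 0 ≤ K ∧ ∀ n : ℕ,
      |∑ k ∈ Finset.range n, X k ω - (∫ x, x ∂ν) * n| ≤ ε * n + K := by
  have hint0 : Integrable (X 0) P := by
    have : Integrable ((fun x : ℝ => x) ∘ (X 0)) P := by
      rw [← hlaw 0] at hint
      exact (integrable_map_measure hint.aestronglyMeasurable (hm 0).aemeasurable).1 hint
    exact this
  have hmean : P[X 0] = ∫ x, x ∂ν := by
    rw [← hlaw 0, integral_map (hm 0).aemeasurable]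
    exact measurable_id.aestronglyMeasurable
  have h := strong_law_ae_real X hint0 (fun i j hij => hX.indepFun hij)
    (fun i => ⟨(hm i).aemeasurable, (hm 0).aemeasurable, by rw [hlaw, hlaw]⟩)
  rw [hmean] at h
  filter_upwards [h] with ω hω ε hε
  exact linear_bound_of_tendsto hω hε

end Pool.Agent.Lib.MP_87e9f0_pr
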