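import Pool.Agent.Lib.MP_87e9f0_pr.Event

set_option autoImplicit false

open MeasureTheory ProbabilityTheory Filter Topology

namespace Pool.Agent.Lib.MP_87e9f0_pr

/-- The canonical graphical data on the product space. -/
lemma canonical_data (d : ℕ) {lam : ℝ} [∀ k, IsProbabilityMeasure (inputLaw lam k)] :
    IsGraphicalData (Measure.infinitePi (fun k : Kind × Site d × ℕ => inputLaw lam k.1)) lam
      (fun k w => w k) where
  measurable := fun k => measurable_pi_apply k
  law := fun k => (measurePreserving_eval_infinitePi _ k).map_eq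
  indep := by
    have := iIndepFun_infinitePi (P := fun k : Kind × Site d × ℕ => inputLaw lam k.1)
      (X := fun _ x => x) (fun _ => measurable_id)
    exact this

lemma measurable_iSup_comap {Ω ι : Type*} {ξ : ι → Ω → ℝ} {S : Set ι} {k : ι} (hk : k ∈ S) :
    Measurable[⨆ k ∈ S, MeasurableSpace.comap (ξ k) inferInstance] (ξ k) := by
  have h1 : MeasurableSpace.comap (ξ k) inferInstance ≤
      ⨆ k ∈ S, MeasurableSpace.comap (ξ k) inferInstance :=
    le_biSup (fun k => MeasurableSpace.comap (ξ k) inferInstance) hk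
  exact Measurable.mono (comap_measurable (ξ k)) h1 le_rfl

/-- There is `K` such that, whatever `M ≥ 1`, the block event has a positive probability. -/
lemma exists_blockEvent_pos {d : ℕ} (B : Finset (Site d)) {lam p ε : ℝ} (hlam : 0 < lam)
    (hp0 : 0 ≤ p) (hp1 : p ≤ 1) (hε : 0 < ε) [∀ k, IsProbabilityMeasure (inputLaw lam k)] :
    ∃ K : ℝ, 0 ≤ K ∧ ∀ M : ℕ, 1 ≤ M →
      0 < (Measure.infinitePi (fun k : Kind × Site d × ℕ => inputLaw lam k.1))
        {w | BlockEvent B M lam p ε K w} := by
  classical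
  set Q := Measure.infinitePi (fun k : Kind × Site d × ℕ => inputLaw lam k.1) with hQ
  have hdata := canonical_data d (lam := lam)
  have hae := ae_linBound hdata hlam hp0 hp1
  -- choose `K`
  obtain ⟨K, hK⟩ : ∃ K : ℕ, 0 < Q {w | ∀ i ∈ B, LinBound lam p ε K w i} := by
    by_contra hcon
    push Not at hcon
    have h0 : ∀ K : ℕ, Q {w | ∀ i ∈ B, LinBound lam p ε K w i} = 0 := fun K =>
      le_antisymm (hcon K) (zero_le)
    have h1 : Q (⋃ K : ℕ, {w | ∀ i ∈ B, LinBound lam p ε K w i}) = 0 := measure_iUnion_null h0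
    have h2 : ∀ᵐ w ∂Q, w ∈ ⋃ K : ℕ, {w | ∀ i ∈ B, LinBound lam p ε K w i} := by
      filter_upwards [hae] with w hw
      have h3 : ∀ i : Site d, ∃ K : ℝ, 0 ≤ K ∧ LinBound lam p ε K w i := fun i => hw i ε hε
      choose KK hKK0 hKK using h3
      obtain ⟨n, hn⟩ := exists_nat_ge (∑ i ∈ B, KK i)
      refine Set.mem_iUnion.2 ⟨n, fun i hi => (hKK i).mono ?_⟩
      exact (Finset.single_le_sum (f := KK) (fun i _ => hKK0 i) hi).trans hn
    have h3 : ∀ᵐ w ∂Q, False := by
      filter_upwards [h2, measure_eq_zero_iff_ae_notMem.1 h1] with w a b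
      exact b a
    rw [ae_iff] at h3
    simp at h3
  refine ⟨K, Nat.cast_nonneg K, fun M hM => ?_⟩
  -- independence of the two parts
  have hind : iIndep (fun k => MeasurableSpace.comap
      (fun w : Kind × Site d × ℕ → ℝ => w k) inferInstance) Q := hdata.indep
  have hdisj : Disjoint (Set.range (shift (d := d) M))ᶜ (Set.range (shift (d := d) M)) :=
    disjoint_compl_left
  have hIndep := indep_iSup_of_disjoint
    (fun k => (hdata.measurable k).comap_le) hind hdisj
  have hE0 : MeasurableSet[⨆ k ∈ (Set.range (shift (d := d) M))ᶜ, MeasurableSpace.comap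
      (fun w : Kind × Site d × ℕ → ℝ => w k) inferInstance]
      {w : Kind × Site d × ℕ → ℝ | ∀ i ∈ B,
        (∀ k < M, w (Kind.arrival, i, k) ∈ Set.Ioc (0 : ℝ) (1 / M)) ∧
        w (Kind.departure, i, 0) ∈ Set.Ioc (1 : ℝ) 2} := by
    apply measurableSet_init _ B M (w := fun k (w : Kind × Site d × ℕ → ℝ) => w k)
    · intro i _ k hk
      apply measurable_iSup_comap (ξ := fun k (w : Kind × Site d × ℕ → ℝ) => w k)
      rintro ⟨⟨k1, i1, n1⟩, h⟩
      cases k1 <;> simp [shift] at h
      omega
    · intro i _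
      apply measurable_iSup_comap (ξ := fun k (w : Kind × Site d × ℕ → ℝ) => w k)
      rintro ⟨⟨k1, i1, n1⟩, h⟩
      cases k1 <;> simp [shift] at h
  have hE1 : MeasurableSet[⨆ k ∈ (Set.range (shift (d := d) M)), MeasurableSpace.comap
      (fun w : Kind × Site d × ℕ → ℝ => w k) inferInstance]
      {w : Kind × Site d × ℕ → ℝ | ∀ i ∈ B, LinBound lam p ε K (fun k => w (shift M k)) i} := by
    apply measurableSet_lin _ B lam p ε K (w := fun k (w : Kind × Site d × ℕ → ℝ) => w (shift M k))
    intro k n i _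
    exact measurable_iSup_comap (ξ := fun k (w : Kind × Site d × ℕ → ℝ) => w k) ⟨_, rfl⟩
  have hprod := (Indep_iff _ _ _).1 hIndep _ _ hE0 hE1
  have hset : {w : Kind × Site d × ℕ → ℝ | BlockEvent B M lam p ε K w} =
      {w : Kind × Site d × ℕ → ℝ | ∀ i ∈ B,
        (∀ k < M, w (Kind.arrival, i, k) ∈ Set.Ioc (0 : ℝ) (1 / M)) ∧
        w (Kind.departure, i, 0) ∈ Set.Ioc (1 : ℝ) 2} ∩
      {w : Kind × Site d × ℕ → ℝ | ∀ i ∈ B, LinBound lam p ε K (fun k => w (shift M k)) i} := rfl
  rw [hset, hprod]
  have hMpos : (0 : ℝ) < M := by exact_mod_cast (by omega : 0 < M)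
  refine ENNReal.mul_pos ?_ ?_
  · -- the initial part
    set F : Finset (Kind × Site d × ℕ) :=
      (B ×ˢ Finset.range M).image (fun x => (Kind.arrival, x.1, x.2)) ∪
      B.image (fun i => (Kind.departure, i, 0)) with hF
    set I : Kind × Site d × ℕ → Set ℝ := fun k => match k.1 with
      | Kind.arrival => Set.Ioc (0 : ℝ) (1 / M)
      | Kind.departure => Set.Ioc (1 : ℝ) 2
      | Kind.mark => Set.univ with hI
    have hsetF : {w : Kind × Site d × ℕ → ℝ | ∀ i ∈ B,
        (∀ k < M, w (Kind.arrival, i, k) ∈ Set.Ioc (0 : ℝ) (1 / M)) ∧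
        w (Kind.departure, i, 0) ∈ Set.Ioc (1 : ℝ) 2} = Set.pi (F : Set _) I := by
      ext w
      simp only [Set.mem_ofPred_eq, Set.mem_pi, Finset.mem_coe, hF, Finset.mem_union,
        Finset.mem_image, Finset.mem_product, Finset.mem_range, Prod.exists]
      constructor
      · rintro h k (⟨i, n, ⟨hi, hn⟩, rfl⟩ | ⟨i, hi, rfl⟩)
        · exact (h i hi).1 n hn
        · exact (h i hi).2
      · intro h i hi
        refine ⟨fun k hk => h _ (Or.inl ⟨i, k, ⟨hi, hk⟩, rfl⟩), h _ (Or.inr ⟨i, hi, rfl⟩)⟩
    rw [hsetF, hQ, Measure.infinitePi_pi]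
    · rw [Finset.prod_ne_zero_iff]
      rintro ⟨k1, i1, n1⟩ _
      cases k1 with
      | arrival =>
        simp only [hI, inputLaw]
        exact (expMeasure_Ioc_pos hlam le_rfl (by positivity)).ne'
      | departure =>
        simp only [hI, inputLaw]
        exact (expMeasure_Ioc_pos one_pos zero_le_one one_lt_two).ne'
      | mark =>
        simp only [hI, inputLaw]
        have := isProbabilityMeasure_inputLaw hlam Kind.mark
        simp only [inputLaw] at this
        rw [measure_univ]
        exact one_ne_zero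
    · rintro ⟨k1, i1, n1⟩ _
      cases k1 with
      | arrival => exact measurableSet_Ioc
      | departure => exact measurableSet_Ioc
      | mark => exact MeasurableSet.univ
  · -- the shifted inputs have the same law
    have hre : IsGraphicalData Q lam (fun k w => w (shift M k)) :=
      hdata.reindex (shift_injective M) (shift_fst M)
    have hlaw := map_eq_infinitePi hre
    have hmeas : Measurable (fun (w : Kind × Site d × ℕ → ℝ) (k : Kind × Site d × ℕ) =>
        w (shift M k)) := measurable_pi_lambda _ (fun k => measurable_pi_apply _)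
    have hG : MeasurableSet {w : Kind × Site d × ℕ → ℝ | ∀ i ∈ B, LinBound lam p ε K w i} :=
      measurableSet_lin _ B lam p ε K (w := fun k (w : Kind × Site d × ℕ → ℝ) => w k) (fun k n i _ => measurable_pi_apply _)
    have h4 : Q {w : Kind × Site d × ℕ → ℝ | ∀ i ∈ B,
        LinBound lam p ε K (fun k => w (shift M k)) i}
        = Q {w | ∀ i ∈ B, LinBound lam p ε K w i} := by
      conv_rhs => rw [hQ, ← hlaw]
      rw [Measure.map_apply hmeas hG]
      rfl
    rw [h4]
    exact hK.ne'

section

variable {d : ℕ} {Ω : Type*} [MeasurableSpace Ω] {P : Measure Ω} [IsProbabilityMeasure P]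
  {lam : ℝ} {ξ : Kind × Site d × ℕ → Ω → ℝ}

lemma prob_blockEvent [∀ k, IsProbabilityMeasure (inputLaw lam k)] (hξ : IsGraphicalData P lam ξ)
    (B : Finset (Site d)) (M : ℕ) (p ε K : ℝ) :
    P {ω | BlockEvent B M lam p ε K (fun k => ξ k ω)} =
      (Measure.infinitePi (fun k : Kind × Site d × ℕ => inputLaw lam k.1))
        {w | BlockEvent B M lam p ε K w} := by
  rw [← map_eq_infinitePi hξ, Measure.map_apply]
  · rfl
  · exact measurable_pi_lambda _ hξ.measurable
  · exact measurableSet_blockEvent _ B M lam p ε K (w := fun k (w : Kind × Site d × ℕ → ℝ) => w k)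
      (fun k n i _ => measurable_pi_apply _)

/-- Almost surely the block event occurs for one of infinitely many disjoint translates of the
block. -/
lemma ae_exists_blockEvent [∀ k, IsProbabilityMeasure (inputLaw lam k)]
    (hξ : IsGraphicalData P lam ξ)
    (B : Finset (Site d)) (M : ℕ) (p ε K : ℝ)
    (hpos : 0 < (Measure.infinitePi (fun k : Kind × Site d × ℕ => inputLaw lam k.1))
        {w | BlockEvent B M lam p ε K w})
    (z : ℕ → Site d) (hz : ∀ m n, m ≠ n → ∀ i ∈ B, ∀ j ∈ B, i + z m ≠ j + z n) :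
    ∀ᵐ ω ∂P, ∃ m, BlockEvent B M lam p ε K (fun k => ξ (k.1, k.2.1 + z m, k.2.2) ω) := by
  classical
  set q := (Measure.infinitePi (fun k : Kind × Site d × ℕ => inputLaw lam k.1))
        {w | BlockEvent B M lam p ε K w} with hq
  set A : ℕ → Set Ω := fun m =>
    {ω | BlockEvent B M lam p ε K (fun k => ξ (k.1, k.2.1 + z m, k.2.2) ω)} with hA
  set T : ℕ → Set (Kind × Site d × ℕ) := fun m => {k | ∃ i ∈ B, k.2.1 = i + z m} with hT
  have hPA : ∀ m, P (A m) = q := by
    intro m
    have hre : IsGraphicalData P lam (fun k => ξ (k.1, k.2.1 + z m, k.2.2)) := by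
      apply hξ.reindex (g := fun k => (k.1, k.2.1 + z m, k.2.2))
      · rintro ⟨k1, i1, n1⟩ ⟨k2, i2, n2⟩ h
        simpa using h
      · intro k; rfl
    exact prob_blockEvent hre B M p ε K
  have hAm : ∀ m, ∀ S : Set (Kind × Site d × ℕ), T m ⊆ S →
      MeasurableSet[⨆ k ∈ S, MeasurableSpace.comap (ξ k) inferInstance] (A m) := by
    intro m S hS
    apply measurableSet_blockEvent _ B M lam p ε K
      (w := fun k => ξ (k.1, k.2.1 + z m, k.2.2))
    intro k n i hi
    exact measurable_iSup_comap (ξ := ξ) (hS ⟨i, hi, rfl⟩)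
  have hle : ∀ S : Set (Kind × Site d × ℕ),
      (⨆ k ∈ S, MeasurableSpace.comap (ξ k) inferInstance) ≤ ‹MeasurableSpace Ω› :=
    fun S => iSup₂_le (fun k _ => (hξ.measurable k).comap_le)
  have hprod : ∀ N : ℕ, P (⋂ m ∈ Finset.range N, (A m)ᶜ) = (1 - q) ^ N := by
    intro N
    induction N with
    | zero => simp
    | succ N ih =>
      have hdisj : Disjoint (⋃ m ∈ Finset.range N, T m) (T N) := by
        rw [Set.disjoint_left]
        rintro k hk1 ⟨j, hj, hjk⟩
        simp only [Set.mem_iUnion, Finset.mem_range] at hk1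
        obtain ⟨m, hm, i, hi, hik⟩ := hk1
        exact hz m N (by omega) i hi j hj (hik.symm.trans hjk)
      have hIndep := indep_iSup_of_disjoint
        (fun k => (hξ.measurable k).comap_le) hξ.indep hdisj
      have h1 : MeasurableSet[⨆ k ∈ (⋃ m ∈ Finset.range N, T m),
          MeasurableSpace.comap (ξ k) inferInstance] (⋂ m ∈ Finset.range N, (A m)ᶜ) := by
        apply Finset.measurableSet_biInter
        intro m hm
        exact (hAm m _ (Set.subset_biUnion_of_mem (u := T) hm)).compl
      have h2 : MeasurableSet[⨆ k ∈ T N, MeasurableSpace.comap (ξ k) inferInstance] (A N)ᶜ :=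
        (hAm N _ le_rfl).compl
      have h3 := (Indep_iff _ _ _).1 hIndep _ _ h1 h2
      have h4 : (⋂ m ∈ Finset.range (N + 1), (A m)ᶜ)
          = (⋂ m ∈ Finset.range N, (A m)ᶜ) ∩ (A N)ᶜ := by
        ext ω
        simp only [Set.mem_iInter, Finset.mem_range, Set.mem_inter_iff]
        constructor
        · intro h
          exact ⟨fun m hm => h m (by omega), h N (by omega)⟩
        · rintro ⟨ha, hb⟩ m hm
          rcases (Nat.lt_succ_iff_lt_or_eq.1 hm) with h5 | h5
          · exact ha m h5
          · rw [h5]; exact hb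
      rw [h4, h3, ih, pow_succ]
      congr 1
      rw [prob_compl_eq_one_sub (hle _ _ (hAm N _ le_rfl)), hPA]
  have hlim : Tendsto (fun N : ℕ => (1 - q) ^ N) atTop (𝓝 0) := by
    apply ENNReal.tendsto_pow_atTop_nhds_zero_of_lt_one
    exact ENNReal.sub_lt_self ENNReal.one_ne_top one_ne_zero hpos.ne'
  have hzero : P (⋂ m, (A m)ᶜ) = 0 := by
    apply le_antisymm _ (zero_le)
    apply ge_of_tendsto hlim
    filter_upwards with N
    rw [← hprod N]
    apply measure_mono
    intro ω hω
    simp only [Set.mem_iInter] at hω ⊢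
    intro m _
    exact hω m
  rw [ae_iff]
  convert hzero using 2
  ext ω
  simp [hA]

end

end Pool.Agent.Lib.MP_87e9f0_pr
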