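import Pool.Agent.Lib.MP_87e9f0_pr.Perron
import Pool.Agent.Lib.MP_87e9f0_pr.Positive

set_option autoImplicit false

open MeasureTheory ProbabilityTheory Filter Topology

namespace Pool.Agent.Lib.MP_87e9f0_pr

section Det

variable {d : ℕ} {Ω : Type*} {ξ : Kind × Site d × ℕ → Ω → ℝ} {ω : Ω} {lam p ε K : ℝ} {i : Site d}

/-- Linear bounds for the event times from linear bounds for the inputs. -/
lemma LinBound.times (h : LinBound lam p ε K (fun k => ξ k ω) i) (hε0 : 0 ≤ ε)
    (hlam : 0 < lam) (_hε1 : ε < 1 / lam) (_hε2 : ε < 1) (n : ℕ) :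
    eventTime ξ Kind.arrival i n ω ≤ (1 / lam + ε) * n + (1 / lam + 1 + 1 + ε + K) ∧
    (1 / lam - ε) * n - (1 / lam + 1 + 1 + ε + K) ≤ eventTime ξ Kind.arrival i n ω ∧
    eventTime ξ Kind.departure i n ω ≤ (1 + ε) * n + (1 / lam + 1 + 1 + ε + K) ∧
    (1 - ε) * n - (1 / lam + 1 + 1 + ε + K) ≤ eventTime ξ Kind.departure i n ω := by
  have h1 := abs_le.1 (h.1 (n + 1))
  have h2 := abs_le.1 (h.2.1 (n + 1))
  have hl : 0 < 1 / lam := by positivity
  unfold eventTime
  push_cast at h1 h2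
  refine ⟨?_, ?_, ?_, ?_⟩
  · nlinarith [h1.2]
  · nlinarith [h1.1]
  · nlinarith [h2.2]
  · nlinarith [h2.1]

lemma strictMono_eventTime {k : Kind} (h : ∀ n, 0 < ξ (k, i, n) ω) :
    StrictMono (fun n => eventTime ξ k i n ω) := by
  apply strictMono_nat_of_lt_succ
  intro n
  unfold eventTime
  rw [Finset.sum_range_succ _ (n + 1)]
  linarith [h (n + 1)]

lemma finite_of_linear {T : ℕ → ℝ} {β C : ℝ} (hβ : 0 < β)
    (h : ∀ n : ℕ, β * n - C ≤ T n) (t : ℝ) : {n | T n ≤ t}.Finite := by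
  have h1 := (count_upper T (M := 0) (C := |C| + |t|) (t := t) hβ
    (by have := neg_abs_le t; have := abs_nonneg C; linarith)
    (by
      intro n
      rw [zero_add]
      have := h n
      have := le_abs_self C
      have := abs_nonneg t
      linarith)).1
  exact h1

/-- The one-queue dynamics for every queue, from the almost sure properties of the inputs. -/
lemma siteDyn_of {a : Site d → ℝ} {x : ℝ → Site d → ℕ} (hlam : 0 < lam)
    (hdyn : ∀ t : ℝ, 0 ≤ t → ∀ i : Site d,
      (x t i : ℕ∞) + {n : ℕ | eventTime ξ Kind.departure i n ω ≤ t ∧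
        Accepted a ξ ω x i n}.encard = {n : ℕ | eventTime ξ Kind.arrival i n ω ≤ t}.encard)
    (hlin : ∀ i : Site d, ∀ ε : ℝ, 0 < ε → ∃ K : ℝ, 0 ≤ K ∧
      LinBound lam p ε K (fun k => ξ k ω) i) (i : Site d) :
    SiteDyn (fun n => eventTime ξ Kind.arrival i n ω) (fun n => eventTime ξ Kind.departure i n ω)
      {n | ξ (Kind.mark, i, n) ω < departureRate a
        (fun j => Function.leftLim (fun s => x s j) (eventTime ξ Kind.departure i n ω)) i}
      (fun t => x t i) := by
  have hl : 0 < 1 / lam := by positivity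
  set e : ℝ := min (1 / lam) 1 / 2 with he
  have he0 : 0 < e := by positivity
  have he1 : e < 1 / lam := by
    have : min (1 / lam) 1 ≤ 1 / lam := min_le_left _ _
    linarith
  have he2 : e < 1 := by
    have : min (1 / lam) 1 ≤ 1 := min_le_right _ _
    linarith
  obtain ⟨K, _, hK⟩ := hlin i e he0
  have ht := fun n => hK.times he0.le hlam he1 he2 n
  exact
    { eq := fun t ht => hdyn t ht i
      finA := finite_of_linear (by linarith) (fun n => (ht n).2.1)
      finD := finite_of_linear (by linarith) (fun n => (ht n).2.2.2) }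

lemma card_filter_eq_sum (u : ℕ → ℝ) (p : ℝ) (n : ℕ) :
    (((Finset.range n).filter (fun k => u k < p)).card : ℝ)
      = ∑ k ∈ Finset.range n, (if u k < p then (1 : ℝ) else 0) := by
  rw [Finset.sum_boole]

lemma increments_simplify {c1 c2 γ ε s t Z KZ : ℝ} (h1 : γ - ε / 2 ≤ c1) (h2 : c2 ≤ γ + ε / 2)
    (hs : 0 ≤ s) (hst : s ≤ t) (hε : 0 ≤ ε) (h : c1 * t - c2 * s - KZ ≤ Z) :
    γ * (t - s) - ε * t - KZ ≤ Z := by
  have e1 : (γ - ε / 2) * t ≤ c1 * t := mul_le_mul_of_nonneg_right h1 (by linarith)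
  have e2 : c2 * s ≤ (γ + ε / 2) * s := mul_le_mul_of_nonneg_right h2 hs
  have e3 : ε * s ≤ ε * t := mul_le_mul_of_nonneg_left hst hε
  nlinarith

/-- Lower bound on increments for unshifted inputs, with arbitrarily small slope error. -/
lemma hZ_of_linBound (hlam : 0 < lam) (hp : 0 < p) (_hplam : p < lam)
    (hpos : ∀ n : ℕ, 0 < ξ (Kind.arrival, i, n) ω ∧ 0 < ξ (Kind.departure, i, n) ω)
    (hlin : ∀ ε : ℝ, 0 < ε → ∃ K : ℝ, 0 ≤ K ∧ LinBound lam p ε K (fun k => ξ k ω) i) :
    ∀ ε : ℝ, 0 < ε → ∃ K : ℝ, ∀ s t, 0 ≤ s → s ≤ t → (lam - p) * (t - s) - ε * t - K ≤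
      ({n | s < eventTime ξ Kind.arrival i n ω ∧ eventTime ξ Kind.arrival i n ω ≤ t}.ncard : ℝ) -
      ({n | s < eventTime ξ Kind.departure i n ω ∧ eventTime ξ Kind.departure i n ω ≤ t ∧
        n ∈ {n | ξ (Kind.mark, i, n) ω < p}}.ncard : ℝ) := by
  intro ε hε
  obtain ⟨ε', he0, hep, he1, he2, hc1, hc2⟩ := exists_accuracy hlam hp hε
  obtain ⟨K, hK0, hK⟩ := hlin ε' he0
  have ht := fun n => hK.times he0.le hlam he1 he2 n
  have hl : 0 < 1 / lam := by positivity
  set C : ℝ := 1 / lam + 1 + 1 + ε' + K with hC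
  have hC0 : 0 ≤ C := by positivity
  refine ⟨C / (1 / lam + ε') + C / (1 / lam - ε') + 1 + (p + ε') * (C / (1 - ε') + 1) + 2 * K +
    (p - ε') * C / (1 + ε'), fun s t hs hst => ?_⟩
  have h := increments_lower (fun n => eventTime ξ Kind.arrival i n ω)
    (fun n => eventTime ξ Kind.departure i n ω) (fun n => ξ (Kind.mark, i, n) ω)
    (strictMono_eventTime (fun n => (hpos n).1)).monotone
    (strictMono_eventTime (fun n => (hpos n).2)).monotone (M := 0)
    (α := 1 / lam + ε') (β := 1 / lam - ε') (α' := 1 + ε') (β' := 1 - ε') (C := C) (p := p)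
    (ε := ε') (K := K) (by positivity) (by linarith) (by positivity) (by linarith) hC0 hep he0.le
    (by intro n; rw [zero_add]; exact (ht n).1)
    (by intro n; rw [zero_add]; exact (ht n).2.1)
    (fun n => (ht n).2.2.1) (fun n => (ht n).2.2.2)
    (by intro n; rw [card_filter_eq_sum]; exact hK.2.2 n)
    hs hst (by intro n hn; omega)
  exact increments_simplify hc1 hc2 hs hst hε.le h

end Det

end Pool.Agent.Lib.MP_87e9f0_pr
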