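import Pool.Agent.Lib.MP_87e9f0_pr.Final

set_option autoImplicit false

open MeasureTheory ProbabilityTheory Filter Topology

namespace Pool.Agent.Lib.MP_87e9f0_pr

lemma tendsto_prob_le {d : ℕ} {Ω : Type*} [MeasurableSpace Ω] {P : Measure Ω}
    [IsProbabilityMeasure P] {x : ℝ → Ω → Site d → ℕ} (hm : ∀ t, Measurable (x t))
    (hgrow : ∀ᵐ ω ∂P, ∀ i : Site d, ∃ c : ℝ, 0 < c ∧ ∀ᶠ t in atTop, c * t ≤ x t ω i)
    (i : Site d) (k : ℕ) :
    Tendsto (fun t : ℝ => P {ω | x t ω i ≤ k}) atTop (𝓝 0) := by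
  have h := tendsto_measure_of_ae_tendsto_indicator_of_isFiniteMeasure (μ := P) (L := atTop)
    (A := ∅) (As := fun t : ℝ => {ω | x t ω i ≤ k}) MeasurableSet.empty
    (fun t => by
      have h1 : Measurable (fun ω => x t ω i) := (measurable_pi_apply i).comp (hm t)
      exact h1 (measurableSet_Iic (a := k)))
    (by
      filter_upwards [hgrow] with ω hω
      obtain ⟨c, hc, hcg⟩ := hω i
      filter_upwards [hcg, eventually_gt_atTop ((k : ℝ) / c)] with t ht1 ht2
      simp only [Set.mem_empty_iff_false, iff_false, not_le]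
      rw [div_lt_iff₀ hc] at ht2
      have : (k : ℝ) < x t ω i := by linarith
      exact_mod_cast this)
  simpa using h

theorem not_stable_of_growth {d : ℕ} {Ω : Type*} [MeasurableSpace Ω] {P : Measure Ω}
    [IsProbabilityMeasure P] {x : ℝ → Ω → Site d → ℕ} (hm : ∀ t, Measurable (x t))
    (hgrow : ∀ᵐ ω ∂P, ∀ i : Site d, ∃ c : ℝ, 0 < c ∧ ∀ᶠ t in atTop, c * t ≤ x t ω i) :
    ¬ Stable P x := by
  rintro ⟨ν, hν⟩
  have hcont : Continuous (fun y : Site d → ℕ => y 0) := continuous_apply 0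
  have h1 := hν.continuous_comp hcont
  have hzero : ∀ k : ℕ, (ν : Measure (Site d → ℕ)) {y | y 0 ≤ k} = 0 := by
    intro k
    have h2 := ProbabilityMeasure.le_liminf_measure_open_of_tendsto h1.tendsto
      (G := Set.Iic k) (isOpen_discrete _)
    have h3 : Tendsto (fun t : ℝ => P {ω | x t ω 0 ≤ k}) atTop (𝓝 0) :=
      tendsto_prob_le hm hgrow 0 k
    simp only [ProbabilityMeasure.coe_mk] at h2
    have h4 : ∀ t : ℝ, (P.map ((fun y : Site d → ℕ => y 0) ∘ x t)) (Set.Iic k)
        = P {ω | x t ω 0 ≤ k} := by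
      intro t
      rw [Measure.map_apply (hcont.measurable.comp (hm t)) measurableSet_Iic]
      rfl
    simp only [h4] at h2
    rw [h3.liminf_eq] at h2
    have h5 : ((ν : Measure (Site d → ℕ)).map ((fun y : Site d → ℕ => y 0) ∘ id)) (Set.Iic k)
        = (ν : Measure (Site d → ℕ)) {y | y 0 ≤ k} := by
      rw [Measure.map_apply (hcont.measurable.comp measurable_id) measurableSet_Iic]
      rfl
    rw [h5] at h2
    exact le_antisymm h2 (zero_le)
  have huniv : (ν : Measure (Site d → ℕ)) Set.univ = 0 := by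
    have : (Set.univ : Set (Site d → ℕ)) = ⋃ k : ℕ, {y | y 0 ≤ k} := by
      ext y
      simp only [Set.mem_univ, Set.mem_iUnion, Set.mem_ofPred_eq, true_iff]
      exact ⟨y 0, le_rfl⟩
    rw [this]
    exact measure_iUnion_null hzero
  rw [measure_univ] at huniv
  exact one_ne_zero huniv

end Pool.Agent.Lib.MP_87e9f0_pr
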